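import Mathlib

set_option autoImplicit false

/-! Module KS-CommEig. A common eigenvector of finitely many commuting operators (60 lines, Mathlib only).

PROOF. By induction on the finite set `s` (`Finset.induction_on`) there is a submodule `M' ≤ M`, `M' ≠ ⊥`,
stable under all `A a`, `a ∈ S`, on which every `A a` with `a ∈ s` acts as a scalar: for the step restrict `A a₀` to the
finite dimensional space `M' ≠ ⊥`; it has an eigenvalue (`Module.End.exists_eigenvalue`), and the eigenspace in `M'`
is stable under all `A a`, `a ∈ S`, because they commute with `A a₀` on `M`. Take `s = S`. -/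

namespace Pool.Agent.Helper30.SV

theorem exists_common_eigenvector {k V ι : Type*} [Field k] [IsAlgClosed k] [AddCommGroup V]
    [Module k V] (A : ι → Module.End k V) (S : Finset ι) (M : Submodule k V)
    (hfin : FiniteDimensional k M) (hM : M ≠ ⊥) (hstab : ∀ a ∈ S, ∀ f ∈ M, A a f ∈ M)
    (hcomm : ∀ a ∈ S, ∀ b ∈ S, ∀ f ∈ M, A a (A b f) = A b (A a f)) :
    ∃ f ∈ M, f ≠ 0 ∧ ∃ χ : ι → k, ∀ a ∈ S, A a f = χ a • f := by
  classical
  have key : ∀ s : Finset ι, s ⊆ S → ∃ M' : Submodule k V, M' ≤ M ∧ M' ≠ ⊥ ∧
      (∀ a ∈ S, ∀ f ∈ M', A a f ∈ M') ∧ ∃ χ : ι → k, ∀ a ∈ s, ∀ f ∈ M', A a f = χ a • f := by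
    intro s
    induction s using Finset.induction_on with
    | empty =>
      intro _
      exact ⟨M, le_rfl, hM, hstab, fun _ => 0, fun a ha => absurd ha (Finset.notMem_empty a)⟩
    | insert a₀ s ha₀ ih =>
      intro hs
      obtain ⟨M', hle, hne, hst, χ, hχ⟩ := ih fun a ha => hs (Finset.mem_insert_of_mem ha)
      have ha₀S : a₀ ∈ S := hs (Finset.mem_insert_self a₀ s)
      have hfin' : FiniteDimensional k M' := Submodule.finiteDimensional_of_le hle
      have hnt : Nontrivial M' := (Submodule.nontrivial_iff_ne_bot).2 hne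
      obtain ⟨μ, hμ⟩ := Module.End.exists_eigenvalue ((A a₀).restrict (hst a₀ ha₀S))
      obtain ⟨v, hv⟩ := hμ.exists_hasEigenvector
      have hv1 : A a₀ (v : V) = μ • (v : V) := by
        have h1 := hv.apply_eq_smul
        have h2 := congrArg Subtype.val h1
        rwa [LinearMap.coe_restrict_apply, Submodule.coe_smul] at h2
      have hv0 : (v : V) ≠ 0 := fun h => hv.2 (Subtype.ext h)
      refine ⟨M' ⊓ LinearMap.ker (A a₀ - μ • (1 : Module.End k V)), inf_le_left.trans hle, ?_, ?_,
        Function.update χ a₀ μ, ?_⟩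
      · intro hbot
        apply hv0
        have h1 : (v : V) ∈ M' ⊓ LinearMap.ker (A a₀ - μ • (1 : Module.End k V)) := by
          refine ⟨v.2, ?_⟩
          change (A a₀ - μ • (1 : Module.End k V)) (v : V) = 0
          rw [LinearMap.sub_apply, LinearMap.smul_apply, Module.End.one_apply, hv1, sub_self]
        rw [hbot] at h1
        exact (Submodule.mem_bot k).1 h1
      · rintro a ha f ⟨hf1, hf2⟩
        have hf3 : A a₀ f = μ • f := by
          have h1 : (A a₀ - μ • (1 : Module.End k V)) f = 0 := hf2
          rw [LinearMap.sub_apply, LinearMap.smul_apply, Module.End.one_apply] at h1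
          exact sub_eq_zero.1 h1
        refine ⟨hst a ha f hf1, ?_⟩
        change (A a₀ - μ • (1 : Module.End k V)) (A a f) = 0
        rw [LinearMap.sub_apply, LinearMap.smul_apply, Module.End.one_apply,
          hcomm a₀ ha₀S a ha f (hle hf1), hf3, map_smul, sub_self]
      · rintro a ha f ⟨hf1, hf2⟩
        rcases Finset.mem_insert.1 ha with rfl | ha'
        · rw [Function.update_self]
          have h1 : (A a - μ • (1 : Module.End k V)) f = 0 := hf2
          rw [LinearMap.sub_apply, LinearMap.smul_apply, Module.End.one_apply] at h1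
          exact sub_eq_zero.1 h1
        · have hne : a ≠ a₀ := by
            intro h
            rw [h] at ha'
            exact ha₀ ha'
          rw [Function.update_of_ne hne]
          exact hχ a ha' f hf1
  obtain ⟨M', hle, hne, -, χ, hχ⟩ := key S (Finset.Subset.refl S)
  obtain ⟨f, hf, hf0⟩ := (Submodule.ne_bot_iff M').1 hne
  exact ⟨f, hle hf, hf0, χ, fun a ha => hχ a ha f hf⟩

end Pool.Agent.Helper30.SV
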