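import Mathlib

set_option autoImplicit false

/-! Module KS-LogDer. The logarithmic derivative of an eigensequence (Mathlib only). -/

namespace Pool.Agent.Helper30.SV

section

variable {k R : Type*} [Field k] [CommRing R] [Algebra k R]

/-- A derivation applied to all coefficients. -/
noncomputable def hat (D : Derivation k R R) (F : PowerSeries R) : PowerSeries R :=
  PowerSeries.mk fun r => D (PowerSeries.coeff r F)

lemma coeff_hat (D : Derivation k R R) (F : PowerSeries R) (r : ℕ) :
    PowerSeries.coeff r (hat D F) = D (PowerSeries.coeff r F) := by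
  simp [hat]

lemma hat_mul (D : Derivation k R R) (F G : PowerSeries R) :
    hat D (F * G) = F * hat D G + hat D F * G := by
  ext r
  rw [coeff_hat, PowerSeries.coeff_mul, map_sum, map_add, PowerSeries.coeff_mul,
    PowerSeries.coeff_mul, ← Finset.sum_add_distrib]
  refine Finset.sum_congr rfl fun ij _ => ?_
  rw [Derivation.leibniz, coeff_hat, coeff_hat, smul_eq_mul, smul_eq_mul]
  ring

end

theorem exists_logDer {k R : Type*} [Field k] [CommRing R] [Algebra k R]
    {m : ℕ} (δ : Fin m → Derivation k R R)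
    (hker : ∀ f, (∀ a, δ a f = 0) → ∃ c : k, f = algebraMap k R c)
    (Ψ : ℕ → R) (h0 : Ψ 0 = 1) (χ : Fin m → k) (n : Fin m → ℕ) (hn : ∀ a, 0 < n a)
    (hΨ : ∀ a r, δ a (Ψ r) = if n a ≤ r then χ a • Ψ (r - n a) else 0) :
    ∃ (A : Polynomial R) (g : PowerSeries k), A.coeff 0 = 0 ∧ PowerSeries.coeff 0 g = 0 ∧
      (∀ r : ℕ, (r : R) * Ψ r = PowerSeries.coeff r
        (((A : PowerSeries R) + PowerSeries.map (algebraMap k R) g) * PowerSeries.mk Ψ)) ∧
      ∀ p, δ p (A.coeff (n p)) = algebraMap k R (n p * χ p) := by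
  classical
  set P : PowerSeries R := PowerSeries.mk Ψ with hP
  set E : PowerSeries R := PowerSeries.mk fun r => (r : R) * Ψ r with hE
  set Q : PowerSeries R := PowerSeries.invOfUnit P 1 with hQ
  have hPQ : P * Q = 1 := PowerSeries.mul_invOfUnit P 1 (by simp [hP, h0])
  set Λ : PowerSeries R := E * Q with hΛ
  have hΛP : Λ * P = E := by
    rw [hΛ, mul_assoc, mul_comm Q P, hPQ, mul_one]
  have hPh : ∀ a, hat (δ a) P = PowerSeries.C (algebraMap k R (χ a)) * (PowerSeries.X ^ n a * P) := by
    intro a
    ext r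
    rw [coeff_hat, PowerSeries.coeff_C_mul, PowerSeries.coeff_X_pow_mul', hP,
      PowerSeries.coeff_mk, hΨ]
    split_ifs with h
    · rw [PowerSeries.coeff_mk, Algebra.smul_def]
    · rw [mul_zero]
  have hEh : ∀ a, hat (δ a) E = PowerSeries.C (algebraMap k R (χ a)) *
      (PowerSeries.X ^ n a * ((n a : PowerSeries R) * P + E)) := by
    intro a
    ext r
    rw [coeff_hat, PowerSeries.coeff_C_mul, PowerSeries.coeff_X_pow_mul', hE,
      PowerSeries.coeff_mk, Derivation.leibniz, Derivation.map_natCast, smul_zero, add_zero,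
      smul_eq_mul, hΨ]
    split_ifs with h
    · rw [map_add, PowerSeries.coeff_mk, Algebra.smul_def,
        show (n a : PowerSeries R) = PowerSeries.C ((n a : ℕ) : R) by simp,
        PowerSeries.coeff_C_mul, hP, PowerSeries.coeff_mk]
      have h2 : (r : R) = (n a : R) + ((r - n a : ℕ) : R) := by
        rw [← Nat.cast_add, Nat.add_sub_cancel' h]
      rw [h2]
      ring
    · rw [mul_zero, mul_zero]
  have hΛh : ∀ a, hat (δ a) Λ =
      PowerSeries.C (algebraMap k R (χ a)) * (PowerSeries.X ^ n a * (n a : PowerSeries R)) := by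
    intro a
    have h1 := hat_mul (δ a) Λ P
    rw [hΛP, hEh, hPh] at h1
    have h2 : hat (δ a) Λ * P = PowerSeries.C (algebraMap k R (χ a)) *
        (PowerSeries.X ^ n a * (n a : PowerSeries R)) * P := by
      have h3 : hat (δ a) Λ * P = PowerSeries.C (algebraMap k R (χ a)) *
          (PowerSeries.X ^ n a * ((n a : PowerSeries R) * P + E)) -
          Λ * (PowerSeries.C (algebraMap k R (χ a)) * (PowerSeries.X ^ n a * P)) := by
        rw [h1]
        ring
      rw [h3, ← hΛP]
      ring
    calc hat (δ a) Λ = hat (δ a) Λ * P * Q := by rw [mul_assoc, hPQ, mul_one]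
      _ = PowerSeries.C (algebraMap k R (χ a)) * (PowerSeries.X ^ n a * (n a : PowerSeries R)) := by
        rw [h2, mul_assoc _ P Q, hPQ, mul_one]
  have hΛc : ∀ a r, δ a (PowerSeries.coeff r Λ) =
      if r = n a then algebraMap k R (n a * χ a) else 0 := by
    intro a r
    rw [← coeff_hat, hΛh, PowerSeries.coeff_C_mul, PowerSeries.coeff_X_pow_mul',
      show (n a : PowerSeries R) = PowerSeries.C ((n a : ℕ) : R) by simp]
    by_cases h : r = n a
    · rw [if_pos h, h, if_pos le_rfl, Nat.sub_self, PowerSeries.coeff_zero_C, map_mul,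
        map_natCast, mul_comm]
    · rw [if_neg h]
      by_cases h2 : n a ≤ r
      · rw [if_pos h2, PowerSeries.coeff_C, if_neg (by omega), mul_zero]
      · rw [if_neg h2, mul_zero]
  have hΛ0 : PowerSeries.coeff 0 Λ = 0 := by
    have h1 := congrArg (PowerSeries.coeff 0) hΛP
    rw [PowerSeries.coeff_mul, Finset.Nat.antidiagonal_zero, Finset.sum_singleton, hP, hE,
      PowerSeries.coeff_mk, PowerSeries.coeff_mk, h0, mul_one, Nat.cast_zero, zero_mul] at h1
    exact h1
  set I : Finset ℕ := Finset.univ.image n with hI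
  have hc : ∀ r, r ∉ I → ∃ c : k, PowerSeries.coeff r Λ = algebraMap k R c := by
    intro r hr
    apply hker
    intro a
    rw [hΛc, if_neg]
    rintro rfl
    exact hr (Finset.mem_image_of_mem n (Finset.mem_univ a))
  choose! c hc using hc
  have hI0 : (0 : ℕ) ∉ I := by
    intro h
    obtain ⟨a, -, ha⟩ := Finset.mem_image.1 h
    have := hn a
    omega
  have hAc : ∀ r, (∑ i ∈ I, Polynomial.monomial i (PowerSeries.coeff i Λ)).coeff r =
      if r ∈ I then PowerSeries.coeff r Λ else 0 := by
    intro r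
    rw [Polynomial.finsetSum_coeff]
    simp only [Polynomial.coeff_monomial]
    rw [Finset.sum_ite_eq' I r fun i => PowerSeries.coeff i Λ]
  refine ⟨∑ i ∈ I, Polynomial.monomial i (PowerSeries.coeff i Λ),
    PowerSeries.mk fun r => if r = 0 ∨ r ∈ I then 0 else c r, ?_, ?_, ?_, ?_⟩
  · rw [hAc, if_neg hI0]
  · simp
  · intro r
    have h1 : (((∑ i ∈ I, Polynomial.monomial i (PowerSeries.coeff i Λ) : Polynomial R) :
        PowerSeries R) + PowerSeries.map (algebraMap k R)
          (PowerSeries.mk fun r => if r = 0 ∨ r ∈ I then 0 else c r)) = Λ := by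
      ext r
      rw [map_add, Polynomial.coeff_coe, hAc, PowerSeries.coeff_map, PowerSeries.coeff_mk]
      by_cases hr : r ∈ I
      · rw [if_pos hr, if_pos (Or.inr hr), map_zero, add_zero]
      · rw [if_neg hr, zero_add]
        by_cases hr0 : r = 0
        · rw [if_pos (Or.inl hr0), map_zero, hr0, hΛ0]
        · rw [if_neg (by tauto), hc r hr]
    rw [h1, hΛP, hE, PowerSeries.coeff_mk]
  · intro p
    rw [hAc, if_pos (Finset.mem_image_of_mem n (Finset.mem_univ p)), hΛc, if_pos rfl]

end Pool.Agent.Helper30.SV
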