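import Mathlib

set_option autoImplicit false

/-! Project KS: graded families of subspaces, the space `N₁` of compatible functions.

`R` is a vector space, `W` an abelian group of weights, `E w` the part of weight `w` (a subspace of `R`).
The graded space `⨁_w E w` is finite dimensional if and only if `GFin E`. -/

namespace Pool.Agent.Helper30.SV

variable {k R W : Type*} [Field k] [AddCommGroup R] [Module k R]

/-- The direct sum of the family `E` is finite dimensional. -/
def GFin (E : W → Submodule k R) : Prop :=
  {w | E w ≠ ⊥}.Finite ∧ ∀ w, FiniteDimensional k (E w)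

/-- The direct sum of the family `E`, as a subspace of `W →₀ R`. -/
def gr (E : W → Submodule k R) : Submodule k (W →₀ R) where
  carrier := {F | ∀ w, F w ∈ E w}
  zero_mem' w := (E w).zero_mem
  add_mem' {F G} hF hG w := (E w).add_mem (hF w) (hG w)
  smul_mem' c F hF w := (E w).smul_mem c (hF w)

lemma mem_gr {E : W → Submodule k R} {F : W →₀ R} : F ∈ gr E ↔ ∀ w, F w ∈ E w := Iff.rfl

lemma single_mem_gr {E : W → Submodule k R} {w : W} {f : R} (hf : f ∈ E w) :
    Finsupp.single w f ∈ gr E := by
  classical
  intro w'
  rw [Finsupp.single_apply]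
  split_ifs with h
  · rw [← h]; exact hf
  · exact (E w').zero_mem

theorem gfin_iff {E : W → Submodule k R} : GFin E ↔ FiniteDimensional k (gr E) := by
  classical
  constructor
  · rintro ⟨h1, h2⟩
    -- `gr E` embeds into the finite product of the `E w`
    let φ : gr E →ₗ[k] ((w : h1.toFinset) → E w) :=
      { toFun := fun F w => ⟨(F : W →₀ R) w, F.2 w⟩
        map_add' := fun F G => rfl
        map_smul' := fun c F => rfl }
    have hφ : Function.Injective φ := by
      intro F G hFG
      apply Subtype.ext
      ext w
      by_cases hw : E w = ⊥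
      · have e1 := F.2 w
        have e2 := G.2 w
        rw [hw, Submodule.mem_bot] at e1 e2
        rw [e1, e2]
      · have h3 := congrFun hFG ⟨w, h1.mem_toFinset.2 hw⟩
        exact congrArg Subtype.val h3
    have := fun w : h1.toFinset => h2 w
    exact Module.Finite.of_injective φ hφ
  · intro h
    constructor
    · -- independent vectors
      by_contra hinf
      have hinf' : {w | E w ≠ ⊥}.Infinite := hinf
      have : Infinite {w | E w ≠ ⊥} := hinf'.to_subtype
      have hex : ∀ w : {w | E w ≠ ⊥}, ∃ f : R, f ∈ E w ∧ f ≠ 0 := fun w =>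
        (Submodule.ne_bot_iff _).1 w.2
      choose f hf hf0 using hex
      let v : {w | E w ≠ ⊥} → gr E := fun w => ⟨Finsupp.single (w : W) (f w), single_mem_gr (hf w)⟩
      have hv : LinearIndependent k v := by
        apply LinearIndependent.of_comp (gr E).subtype
        rw [linearIndependent_iff']
        intro s g hg i hi
        have h3 := DFunLike.congr_fun hg (i : W)
        rw [Finsupp.finset_sum_apply, Finset.sum_eq_single i] at h3
        · simp only [Function.comp_apply, Submodule.subtype_apply, Finsupp.smul_apply,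
            Finsupp.single_eq_same, Finsupp.coe_zero, Pi.zero_apply, smul_eq_zero, v] at h3
          exact h3.resolve_right (hf0 i)
        · intro j _ hj
          have h4 : (j : W) ≠ (i : W) := fun h5 => hj (Subtype.ext h5)
          simp only [Function.comp_apply, Submodule.subtype_apply, Finsupp.smul_apply, v]
          rw [Finsupp.single_apply, if_neg h4, smul_zero]
        · intro h4
          exact absurd hi h4
      exact absurd hv.finite (not_finite_iff_infinite.2 this)
    · intro w
      let φ : E w →ₗ[k] gr E :=
        { toFun := fun f => ⟨Finsupp.single w (f : R), single_mem_gr f.2⟩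
          map_add' := fun f g => by
            apply Subtype.ext
            exact Finsupp.single_add w (f : R) (g : R)
          map_smul' := fun c f => by
            apply Subtype.ext
            exact (Finsupp.smul_single c w (f : R)).symm }
      have hφ : Function.Injective φ := by
        intro f g hfg
        apply Subtype.ext
        exact Finsupp.single_injective w (congrArg Subtype.val hfg)
      exact Module.Finite.of_injective φ hφ

/-- The functions `Φ` with `Φ w ∈ E w`, `X (Φ w) = Φ (w + α)`, which vanish far out in the direction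
of `α`. -/
def N1 {W : Type*} [AddCommGroup W] (X : Module.End k R) (α : W) (E : W → Submodule k R) :
    Submodule k (W → R) where
  carrier := {Φ | (∀ w, Φ w ∈ E w) ∧ (∀ w, X (Φ w) = Φ (w + α)) ∧ ∀ w, ∃ n : ℕ, Φ (w + n • α) = 0}
  zero_mem' := ⟨fun w => (E w).zero_mem, fun w => map_zero X, fun w => ⟨0, rfl⟩⟩
  add_mem' := by
    rintro Φ Ψ ⟨h1, h2, h3⟩ ⟨g1, g2, g3⟩
    have van : ∀ Φ : W → R, (∀ w, X (Φ w) = Φ (w + α)) → ∀ w (n : ℕ), Φ (w + n • α) = 0 →
        ∀ j : ℕ, Φ (w + (n + j) • α) = 0 := by
      intro Φ h w n hn j
      induction j with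
      | zero => exact hn
      | succ j ih =>
        have h4 := h (w + (n + j) • α)
        rw [ih, map_zero] at h4
        have h5 : w + (n + (j + 1)) • α = w + (n + j) • α + α := by
          rw [← add_assoc n j 1, succ_nsmul, add_assoc]
        rw [h5, ← h4]
    refine ⟨fun w => (E w).add_mem (h1 w) (g1 w), fun w => ?_, fun w => ?_⟩
    · change X (Φ w + Ψ w) = Φ (w + α) + Ψ (w + α)
      rw [map_add, h2, g2]
    · obtain ⟨n, hn⟩ := h3 w
      obtain ⟨n', hn'⟩ := g3 w
      refine ⟨n + n', ?_⟩
      change Φ (w + (n + n') • α) + Ψ (w + (n + n') • α) = 0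
      rw [van Φ h2 w n hn n', add_comm n n', van Ψ g2 w n' hn' n, add_zero]
  smul_mem' := by
    rintro c Φ ⟨h1, h2, h3⟩
    refine ⟨fun w => (E w).smul_mem c (h1 w), fun w => ?_, fun w => ?_⟩
    · change X (c • Φ w) = c • Φ (w + α)
      rw [map_smul, h2]
    · obtain ⟨n, hn⟩ := h3 w
      refine ⟨n, ?_⟩
      change c • Φ (w + n • α) = 0
      rw [hn, smul_zero]

lemma mem_N1 {W : Type*} [AddCommGroup W] {X : Module.End k R} {α : W} {E : W → Submodule k R}
    {Φ : W → R} : Φ ∈ N1 X α E ↔
    (∀ w, Φ w ∈ E w) ∧ (∀ w, X (Φ w) = Φ (w + α)) ∧ ∀ w, ∃ n : ℕ, Φ (w + n • α) = 0 := Iff.rfl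

/-- The shift operator `(Δ Φ) w = A (Φ (w - ω))`. -/
def Sh {W : Type*} [AddCommGroup W] (A : Module.End k R) (ω : W) : Module.End k (W → R) where
  toFun Φ w := A (Φ (w - ω))
  map_add' Φ Ψ := by
    funext w
    exact map_add A _ _
  map_smul' c Φ := by
    funext w
    exact map_smul A c _

@[simp] lemma Sh_apply {W : Type*} [AddCommGroup W] (A : Module.End k R) (ω : W) (Φ : W → R)
    (w : W) : Sh A ω Φ w = A (Φ (w - ω)) := rfl

end Pool.Agent.Helper30.SV
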