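import Pool.Agent.Helper30.SV.N1Defs
import Pool.Agent.Helper93.KN.Chain

set_option autoImplicit false

/-! Module KS-N1Ne. The space `N₁` is not zero (pure linear algebra, 120 lines).

PROOF. Let `V = W →₀ R` and `Y : V →ₗ[k] V`, `(Y F) (w + α) = X (F w)`
(`Finsupp.mapDomain (· + α) ∘ Finsupp.mapRange X`, or a linear map built with `Finsupp.lsum`/`Finsupp.lmapDomain`;
the property needed is `(Y F) w = X (F (w - α))` for all `w`). `gr E` is stable under `Y`, `Y` is locally nilpotent on
`gr E` (finite support and `hnil`), `gr E ⊓ ker Y = gr (E ⊓ ker X)` is finite dimensional (`gfin_iff`), `gr E` is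
not (`gfin_iff`, `hinf`). By `Pool.Agent.Helper93.KN.exists_seq` there are `0 ≠ e ∈ gr E ⊓ ker Y` and a sequence
`F m ∈ gr E` with `F 0 = e`, `Y (F (m + 1)) = F m`. Choose `w₀` with `e w₀ ≠ 0` and put
`G m = F m (w₀ - m • α) ∈ E (w₀ - m • α)`: `X (G (m + 1)) = (Y (F (m + 1))) (w₀ - m • α) = G m` and
`X (G 0) = (Y e) (w₀ + α) = 0`. Define `Φ w = G m` if `w = w₀ - m • α` for some `m : ℕ` (unique, by `hα`) and
`Φ w = 0` otherwise. Then `Φ ∈ N1 X α E` and `Φ w₀ = e w₀ ≠ 0`. (`X (Φ w) = Φ (w + α)`: if `w = w₀ - m • α` with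
`m ≥ 1` then `w + α = w₀ - (m - 1) • α`; if `w = w₀`, both sides are zero, `w₀ + α` is not of the form
`w₀ - m • α`; if `w` is not of this form, then `w + α` is not, or `w + α = w₀ - m • α` and
`w = w₀ - (m + 1) • α`, a contradiction.) -/

namespace Pool.Agent.Helper30.SV

section

variable {k R W : Type*} [Field k] [AddCommGroup R] [Module k R] [AddCommGroup W]

/-- The shifted operator. -/
private noncomputable def YY (X : Module.End k R) (α : W) : (W →₀ R) →ₗ[k] (W →₀ R) :=
  (Finsupp.lmapDomain R k (fun w : W => w + α)) ∘ₗ (Finsupp.mapRange.linearMap X)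

private theorem YY_apply (X : Module.End k R) (α : W) (F : W →₀ R) (w : W) :
    YY X α F w = X (F (w - α)) := by
  change Finsupp.mapDomain (fun w : W => w + α) (Finsupp.mapRange.linearMap X F) w = _
  have h1 : w = (fun w : W => w + α) (w - α) := (sub_add_cancel w α).symm
  rw [h1, Finsupp.mapDomain_apply (add_left_injective α)]
  simp

private theorem YY_pow_apply (X : Module.End k R) (α : W) (n : ℕ) (F : W →₀ R) (w : W) :
    ((YY X α) ^ n) F w = (X ^ n) (F (w - n • α)) := by
  induction n generalizing w with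
  | zero => simp
  | succ n ih =>
    rw [pow_succ', pow_succ']
    change YY X α (((YY X α) ^ n) F) w = X ((X ^ n) (F (w - (n + 1) • α)))
    rw [YY_apply, ih]
    congr 3
    rw [succ_nsmul]
    abel

end

theorem N1_ne_bot {k R W : Type*} [Field k] [AddCommGroup R] [Module k R] [AddCommGroup W]
    (X : Module.End k R) (α : W) (E : W → Submodule k R)
    (hα : ∀ n : ℤ, n • α = 0 → n = 0)
    (hE : ∀ w, ∀ f ∈ E w, X f ∈ E (w + α))
    (hnil : ∀ w, ∀ f ∈ E w, ∃ n : ℕ, (X ^ n) f = 0)
    (hfin : GFin fun w => E w ⊓ LinearMap.ker X) (hinf : ¬ GFin E) : N1 X α E ≠ ⊥ := by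
  classical
  have hDE : ∀ f ∈ gr E, YY X α f ∈ gr E := by
    intro F hF w
    rw [YY_apply]
    have h1 := hE (w - α) _ (hF (w - α))
    rwa [sub_add_cancel] at h1
  have hnil' : ∀ f ∈ gr E, ∃ m : ℕ, ((YY X α) ^ m) f = 0 := by
    intro F hF
    have h0 : ∀ w, ∃ n : ℕ, (X ^ n) (F w) = 0 := fun w => hnil w _ (hF w)
    choose n hn using h0
    refine ⟨F.support.sup n, ?_⟩
    ext w
    rw [YY_pow_apply, Finsupp.zero_apply]
    by_cases hw : F (w - (F.support.sup n) • α) = 0
    · rw [hw, map_zero]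
    · have h1 : n (w - (F.support.sup n) • α) ≤ F.support.sup n :=
        Finset.le_sup (Finsupp.mem_support_iff.2 hw)
      obtain ⟨j, hj⟩ := Nat.exists_eq_add_of_le' h1
      generalize w - (F.support.sup n) • α = v at hj
      rw [hj, pow_add]
      change (X ^ j) ((X ^ (n v)) (F v)) = 0
      rw [hn, map_zero]
  have hker : (gr E ⊓ LinearMap.ker (YY X α) : Submodule k (W →₀ R)) =
      gr fun w => E w ⊓ LinearMap.ker X := by
    ext F
    constructor
    · rintro ⟨h1, h2⟩ w
      refine ⟨h1 w, ?_⟩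
      have h3 : YY X α F = 0 := h2
      have h4 := DFunLike.congr_fun h3 (w + α)
      rw [YY_apply, add_sub_cancel_right, Finsupp.zero_apply] at h4
      exact h4
    · intro h
      refine ⟨fun w => (h w).1, ?_⟩
      change YY X α F = 0
      ext w
      rw [YY_apply, Finsupp.zero_apply]
      exact (h (w - α)).2
  have hfin' : FiniteDimensional k
      (gr E ⊓ LinearMap.ker (YY X α) : Submodule k (W →₀ R)) := by
    rw [hker]
    exact gfin_iff.1 hfin
  have hinf' : ¬ FiniteDimensional k (gr E) := fun h => hinf (gfin_iff.2 h)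
  obtain ⟨C, hC1, hC2, hC3, -⟩ :=
    Pool.Agent.Helper93.KN.exists_seq (YY X α) (gr E) hDE hnil' hfin' hinf'
  obtain ⟨e, heC, he0⟩ := (Submodule.ne_bot_iff _).1 hC2
  obtain ⟨F, hF0, hFE, hFs⟩ := hC3 e heC
  obtain ⟨w₀, hw₀⟩ : ∃ w₀, e w₀ ≠ 0 := by
    by_contra h
    push Not at h
    exact he0 (Finsupp.ext h)
  have hek : YY X α e = 0 := (hC1 heC).2
  have hcancel : ∀ m : ℕ, w₀ + α ≠ w₀ - m • α := by
    intro m h
    have h1 : ((m : ℤ) + 1) • α = 0 := by
      rw [add_smul, one_smul, natCast_zsmul]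
      have h2 : α = - (m • α) := by
        have h3 : w₀ + α = w₀ + (- (m • α)) := by rw [h, sub_eq_add_neg]
        exact add_left_cancel h3
      nth_rewrite 2 [h2]
      abel
    have h3 := hα _ h1
    omega
  have huniq : ∀ m m' : ℕ, w₀ - m • α = w₀ - m' • α → m = m' := by
    intro m m' h
    have h1 : m • α = m' • α := sub_right_injective h
    have h2 : ((m : ℤ) - m') • α = 0 := by
      rw [sub_smul, natCast_zsmul, natCast_zsmul, h1, sub_self]
    have h3 := hα _ h2
    omega
  let Φ : W → R := fun w =>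
    if h : ∃ m : ℕ, w = w₀ - m • α then F (Classical.choose h) w else 0
  have hΦ : ∀ m : ℕ, Φ (w₀ - m • α) = F m (w₀ - m • α) := by
    intro m
    have h : ∃ m' : ℕ, w₀ - m • α = w₀ - m' • α := ⟨m, rfl⟩
    have h1 : Φ (w₀ - m • α) = F (Classical.choose h) (w₀ - m • α) := dif_pos h
    rw [h1, ← huniq _ _ (Classical.choose_spec h)]
  have hΦ0 : ∀ w, (¬ ∃ m : ℕ, w = w₀ - m • α) → Φ w = 0 := fun w h => dif_neg h
  have hΦ1 : Φ (w₀ + α) = 0 := hΦ0 _ (fun ⟨m, hm⟩ => hcancel m hm)
  have hmem : Φ ∈ N1 X α E := by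
    rw [mem_N1]
    refine ⟨fun w => ?_, fun w => ?_, fun w => ?_⟩
    · by_cases h : ∃ m : ℕ, w = w₀ - m • α
      · obtain ⟨m, rfl⟩ := h
        rw [hΦ]
        exact hFE m _
      · rw [hΦ0 w h]
        exact (E w).zero_mem
    · by_cases h : ∃ m : ℕ, w = w₀ - m • α
      · obtain ⟨m, rfl⟩ := h
        rw [hΦ]
        cases m with
        | zero =>
          rw [zero_nsmul, sub_zero, hF0, hΦ1]
          have h4 := DFunLike.congr_fun hek (w₀ + α)
          rw [YY_apply, add_sub_cancel_right, Finsupp.zero_apply] at h4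
          exact h4
        | succ m =>
          have h2 : w₀ - (m + 1) • α + α = w₀ - m • α := by
            rw [succ_nsmul]
            abel
          rw [h2, hΦ, ← hFs m, YY_apply]
          congr 2
          rw [succ_nsmul]
          abel
      · rw [hΦ0 w h, map_zero]
        symm
        apply hΦ0
        rintro ⟨m, hm⟩
        apply h
        refine ⟨m + 1, ?_⟩
        rw [succ_nsmul, ← sub_sub, ← hm]
        abel
    · by_cases h : ∃ m : ℕ, w = w₀ - m • α
      · obtain ⟨m, rfl⟩ := h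
        refine ⟨m + 1, ?_⟩
        have h2 : w₀ - m • α + (m + 1) • α = w₀ + α := by
          rw [succ_nsmul]
          abel
        rw [h2, hΦ1]
      · refine ⟨0, ?_⟩
        rw [zero_nsmul, add_zero]
        exact hΦ0 w h
  intro hbot
  rw [hbot, Submodule.mem_bot] at hmem
  apply hw₀
  have h1 := hΦ 0
  rw [zero_nsmul, sub_zero, hF0, hmem] at h1
  rw [← h1]
  rfl

end Pool.Agent.Helper30.SV
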