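import Pool.Agent.Helper30.SV.N1Fin
import Pool.Agent.Helper30.SV.N1Ne
import Pool.Agent.Helper30.SV.CommEig

set_option autoImplicit false

/-! Module KS-N1Eig. A common eigenfunction of the shift operators on `N₁` (120 lines; imports are black boxes).

PROOF. Let `N = N1 (A p) (ω p) E` (finite dimensional by `fin_N1`, not zero by `N1_ne_bot`; `n • ω p = 0 → n = 0` follows
from `hα`, `hd`, `hα₁`), `Z = AddSubgroup.zmultiples α₁`, `Δ a = Sh (A a) (ω a)`. (i) For `Φ ∈ N`: `Δ a Φ ∈ N` (`hE`, `hcomm`;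
vanishing: `Φ ((w - ω a) + n • α) = 0`), and `Δ a (Δ b Φ) = Δ b (Δ a Φ)` (`hcomm` at the weight `w - ω a - ω b`).
(ii) For a finite set `S` of indices there are `Φ ∈ N`, `Φ ≠ 0`, and `w₀` such that `Φ w ≠ 0 → w - w₀ ∈ Z`, and `Δ a Φ = 0` for
all `a ∈ S` with `ω a ∉ Z`. Induction on `S`. `S = ∅`: take `Φ ∈ N` with `Φ w₀ ≠ 0` and cut it off outside of `w₀ + Z` (the
result is in `N` because `α = ω p ∈ Z`). Step: `a ∉ S`, `ω a ∉ Z`: the elements `(Δ a) ^ n Φ` (`n : ℕ`) of `N` have all properties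
for `S`, with `w₀ + n • ω a` in place of `w₀`, and have disjoint supports (`n • ω a ∉ Z` for `n ≠ 0` by `hprim`), so if all were
nonzero they would be linearly independent, a contradiction; take the last nonzero one. (iii) With `S = univ` let `M` be the
submodule of all `Φ ∈ N` supported on `w₀ + Z` and killed by all `Δ a` with `ω a ∉ Z`: finite dimensional, not zero, stable under
the `Δ a` with `ω a ∈ Z`, which commute. `exists_common_eigenvector` (for the finite set of all `a` with `ω a ∈ Z`) gives the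
result. -/

namespace Pool.Agent.Helper30.SV

private theorem eig_mem {k R W : Type*} [Field k] [AddCommGroup R] [Module k R]
    [AddCommGroup W] {m : ℕ} (A : Fin m → Module.End k R) (ω : Fin m → W)
    (E : W → Submodule k R) (hE : ∀ a w, ∀ f ∈ E w, A a f ∈ E (w + ω a))
    (hcomm : ∀ a b w, ∀ f ∈ E w, A a (A b f) = A b (A a f)) (p : Fin m) (a : Fin m)
    {Φ : W → R} (hΦ : Φ ∈ N1 (A p) (ω p) E) : Sh (A a) (ω a) Φ ∈ N1 (A p) (ω p) E := by
  obtain ⟨h1, h2, h3⟩ := hΦ
  refine ⟨fun w => ?_, fun w => ?_, fun w => ?_⟩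
  · rw [Sh_apply]
    have h := hE a (w - ω a) _ (h1 (w - ω a))
    rwa [sub_add_cancel] at h
  · rw [Sh_apply, Sh_apply, hcomm p a (w - ω a) _ (h1 _), h2]
    congr 2
    abel
  · obtain ⟨n, hn⟩ := h3 (w - ω a)
    refine ⟨n, ?_⟩
    rw [Sh_apply]
    have h4 : w + n • ω p - ω a = w - ω a + n • ω p := by abel
    rw [h4, hn, map_zero]

private theorem eig_comm {k R W : Type*} [Field k] [AddCommGroup R] [Module k R]
    [AddCommGroup W] {m : ℕ} (A : Fin m → Module.End k R) (ω : Fin m → W)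
    (E : W → Submodule k R)
    (hcomm : ∀ a b w, ∀ f ∈ E w, A a (A b f) = A b (A a f)) (a b : Fin m)
    {Φ : W → R} (hΦ : ∀ w, Φ w ∈ E w) :
    Sh (A a) (ω a) (Sh (A b) (ω b) Φ) = Sh (A b) (ω b) (Sh (A a) (ω a) Φ) := by
  funext w
  rw [Sh_apply, Sh_apply, Sh_apply, Sh_apply]
  have h4 : w - ω a - ω b = w - ω b - ω a := by abel
  rw [h4]
  exact hcomm a b _ _ (hΦ _)

private theorem eig_cut {k R W : Type*} [Field k] [AddCommGroup R] [Module k R]
    [AddCommGroup W] (X : Module.End k R) (α : W) (E : W → Submodule k R)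
    (Z : AddSubgroup W) (hα : α ∈ Z) {Φ : W → R} (hΦ : Φ ∈ N1 X α E) (w₀ : W) (h0 : Φ w₀ ≠ 0) :
    ∃ Ψ ∈ N1 X α E, Ψ ≠ 0 ∧ ∀ w, Ψ w ≠ 0 → w - w₀ ∈ Z := by
  classical
  obtain ⟨h1, h2, h3⟩ := hΦ
  refine ⟨fun w => if w - w₀ ∈ Z then Φ w else 0, ⟨fun w => ?_, fun w => ?_, fun w => ?_⟩,
    ?_, ?_⟩
  · by_cases h : w - w₀ ∈ Z
    · simp only [if_pos h]
      exact h1 w
    · simp only [if_neg h]
      exact (E w).zero_mem
  · have h4 : w + α - w₀ ∈ Z ↔ w - w₀ ∈ Z := by
      have h5 : w + α - w₀ = (w - w₀) + α := by abel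
      rw [h5]
      exact Z.add_mem_cancel_right hα
    by_cases h : w - w₀ ∈ Z
    · simp only [if_pos h, if_pos (h4.2 h)]
      exact h2 w
    · simp only [if_neg h, if_neg (fun h' => h (h4.1 h')), map_zero]
  · obtain ⟨n, hn⟩ := h3 w
    refine ⟨n, ?_⟩
    simp only [hn, ite_self]
  · intro h
    have h5 := congrFun h w₀
    simp only [sub_self, Z.zero_mem, if_true, Pi.zero_apply] at h5
    exact h0 h5
  · intro w hw
    by_contra h
    apply hw
    simp only [if_neg h]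

private theorem eig_indep {k R W : Type*} [Field k] [AddCommGroup R] [Module k R]
    [AddCommGroup W] (Z : AddSubgroup W) (ω w₀ : W)
    (hω : ∀ n : ℤ, n ≠ 0 → n • ω ∉ Z) (N : Submodule k (W → R)) [FiniteDimensional k N]
    (v : ℕ → W → R) (hvN : ∀ n, v n ∈ N)
    (hv : ∀ n w, v n w ≠ 0 → w - (w₀ + n • ω) ∈ Z) : ∃ n, v n = 0 := by
  by_contra hcon
  push Not at hcon
  let u : ℕ → N := fun n => ⟨v n, hvN n⟩
  have hu : LinearIndependent k u := by
    apply LinearIndependent.of_comp N.subtype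
    rw [linearIndependent_iff']
    intro s g hg i hi
    obtain ⟨w, hw⟩ := Function.ne_iff.1 (hcon i)
    rw [Pi.zero_apply] at hw
    have h3 := congrFun hg w
    rw [Finset.sum_apply, Finset.sum_eq_single i] at h3
    · simp only [Function.comp_apply, Submodule.subtype_apply, Pi.smul_apply, Pi.zero_apply, u] at h3
      exact (smul_eq_zero.1 h3).resolve_right hw
    · intro j _ hj
      simp only [Function.comp_apply, Submodule.subtype_apply, Pi.smul_apply, u]
      have h4 : v j w = 0 := by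
        by_contra h5
        have h6 := Z.sub_mem (hv i w hw) (hv j w h5)
        have h7 : w - (w₀ + i • ω) - (w - (w₀ + j • ω)) = ((j : ℤ) - (i : ℤ)) • ω := by
          rw [sub_smul, natCast_zsmul, natCast_zsmul]
          abel
        rw [h7] at h6
        refine hω _ ?_ h6
        intro h8
        apply hj
        omega
      rw [h4, smul_zero]
    · intro h4
      exact absurd hi h4
  exact absurd hu.finite (not_finite_iff_infinite.2 inferInstance)

private theorem eig_step {k R W : Type*} [Field k] [AddCommGroup R] [Module k R]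
    [AddCommGroup W] {m : ℕ} (A : Fin m → Module.End k R) (ω : Fin m → W)
    (E : W → Submodule k R) (hE : ∀ a w, ∀ f ∈ E w, A a f ∈ E (w + ω a))
    (hcomm : ∀ a b w, ∀ f ∈ E w, A a (A b f) = A b (A a f)) (p : Fin m)
    (Z : AddSubgroup W) (hp : ω p ∈ Z) (hprim : ∀ (n : ℤ) (w : W), n ≠ 0 → n • w ∈ Z → w ∈ Z)
    (hN : FiniteDimensional k (N1 (A p) (ω p) E)) (hne : N1 (A p) (ω p) E ≠ ⊥)
    (S : Finset (Fin m)) :
    ∃ Φ ∈ N1 (A p) (ω p) E, Φ ≠ 0 ∧ ∃ w₀ : W, (∀ w, Φ w ≠ 0 → w - w₀ ∈ Z) ∧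
      ∀ a ∈ S, ω a ∉ Z → Sh (A a) (ω a) Φ = 0 := by
  classical
  induction S using Finset.induction_on with
  | empty =>
    obtain ⟨Φ, hΦ, hΦ0⟩ := (Submodule.ne_bot_iff _).1 hne
    obtain ⟨w₀, hw₀⟩ := Function.ne_iff.1 hΦ0
    obtain ⟨Ψ, h1, h2, h3⟩ := eig_cut (A p) (ω p) E Z hp hΦ w₀ hw₀
    exact ⟨Ψ, h1, h2, w₀, h3, fun a ha => absurd ha (Finset.notMem_empty a)⟩
  | insert a S haS ih =>
    obtain ⟨Φ, h1, h2, w₀, h3, h4⟩ := ih
    by_cases ha : ω a ∈ Z
    · refine ⟨Φ, h1, h2, w₀, h3, fun b hb hbZ => ?_⟩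
      rcases Finset.mem_insert.1 hb with rfl | hb'
      · exact absurd ha hbZ
      · exact h4 b hb' hbZ
    · have hmem : ∀ n : ℕ, ((Sh (A a) (ω a)) ^ n) Φ ∈ N1 (A p) (ω p) E := by
        intro n
        induction n with
        | zero => exact h1
        | succ n ih =>
          rw [pow_succ']
          exact eig_mem A ω E hE hcomm p a ih
      have hsupp : ∀ (n : ℕ) (w : W), ((Sh (A a) (ω a)) ^ n) Φ w ≠ 0 → w - (w₀ + n • ω a) ∈ Z := by
        intro n
        induction n with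
        | zero =>
          intro w hw
          rw [zero_smul, add_zero]
          exact h3 w hw
        | succ n ih =>
          intro w hw
          rw [pow_succ'] at hw
          change A a (((Sh (A a) (ω a)) ^ n) Φ (w - ω a)) ≠ 0 at hw
          have h5 : ((Sh (A a) (ω a)) ^ n) Φ (w - ω a) ≠ 0 := by
            intro h6
            rw [h6, map_zero] at hw
            exact hw rfl
          have h6 := ih _ h5
          have h7 : w - ω a - (w₀ + n • ω a) = w - (w₀ + (n + 1) • ω a) := by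
            rw [succ_nsmul]
            abel
          rwa [h7] at h6
      have hkill : ∀ (b : Fin m), b ∈ S → ω b ∉ Z → ∀ n : ℕ,
          Sh (A b) (ω b) (((Sh (A a) (ω a)) ^ n) Φ) = 0 := by
        intro b hb hbZ n
        induction n with
        | zero => exact h4 b hb hbZ
        | succ n ih =>
          rw [pow_succ']
          change Sh (A b) (ω b) (Sh (A a) (ω a) (((Sh (A a) (ω a)) ^ n) Φ)) = 0
          rw [eig_comm A ω E hcomm b a (hmem n).1, ih, map_zero]
      have hex : ∃ n : ℕ, ((Sh (A a) (ω a)) ^ n) Φ = 0 :=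
        eig_indep Z (ω a) w₀ (fun n hn h => ha (hprim n _ hn h)) (N1 (A p) (ω p) E) _ hmem hsupp
      have hn0 : Nat.find hex ≠ 0 := by
        intro h
        have h5 := Nat.find_spec hex
        rw [h] at h5
        exact h2 h5
      obtain ⟨n, hn⟩ := Nat.exists_eq_succ_of_ne_zero hn0
      refine ⟨((Sh (A a) (ω a)) ^ n) Φ, hmem n, ?_, w₀ + n • ω a, hsupp n, ?_⟩
      · apply Nat.find_min hex
        omega
      · intro b hb hbZ
        rcases Finset.mem_insert.1 hb with rfl | hb'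
        · have h5 := Nat.find_spec hex
          rw [hn, Nat.succ_eq_add_one, pow_succ'] at h5
          exact h5
        · exact hkill b hb' hbZ n

theorem exists_eigenfun {k R W : Type*} [Field k] [IsAlgClosed k] [AddCommGroup R] [Module k R]
    [AddCommGroup W] {m : ℕ} (A : Fin m → Module.End k R) (ω : Fin m → W)
    (E : W → Submodule k R) (hE : ∀ a w, ∀ f ∈ E w, A a f ∈ E (w + ω a))
    (hcomm : ∀ a b w, ∀ f ∈ E w, A a (A b f) = A b (A a f))
    (hnil : ∀ a w, ∀ f ∈ E w, ∃ n : ℕ, ((A a) ^ n) f = 0)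
    (p : Fin m) (α₁ : W) (d : ℕ) (hd : 0 < d) (hα : ω p = d • α₁)
    (hα₁ : ∀ n : ℤ, n • α₁ = 0 → n = 0)
    (hprim : ∀ (n : ℤ) (w : W), n ≠ 0 → n • w ∈ AddSubgroup.zmultiples α₁ →
      w ∈ AddSubgroup.zmultiples α₁)
    (hfin : GFin fun w => E w ⊓ LinearMap.ker (A p)) (hinf : ¬ GFin E) :
    ∃ (Φ : W → R) (w₀ : W) (χ : Fin m → k), Φ ∈ N1 (A p) (ω p) E ∧ Φ ≠ 0 ∧
      (∀ w, Φ w ≠ 0 → w - w₀ ∈ AddSubgroup.zmultiples α₁) ∧
      (∀ a, ω a ∉ AddSubgroup.zmultiples α₁ → Sh (A a) (ω a) Φ = 0) ∧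
      ∀ a, ω a ∈ AddSubgroup.zmultiples α₁ → Sh (A a) (ω a) Φ = χ a • Φ := by
  classical
  have hαz : ∀ n : ℤ, n • ω p = 0 → n = 0 := by
    intro n hn
    rw [hα, ← natCast_zsmul, smul_smul] at hn
    have h1 := hα₁ _ hn
    have h2 : (d : ℤ) ≠ 0 := by exact_mod_cast hd.ne'
    exact (mul_eq_zero.1 h1).resolve_right h2
  have hpZ : ω p ∈ AddSubgroup.zmultiples α₁ := by
    rw [hα]
    exact AddSubgroup.nsmul_mem_zmultiples α₁ d
  have hN := fin_N1 (A p) (ω p) E hαz (hE p) (hnil p) hfin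
  have hne := N1_ne_bot (A p) (ω p) E hαz (hE p) (hnil p) hfin hinf
  obtain ⟨Φ, h1, h2, w₀, h3, h4⟩ := eig_step A ω E hE hcomm p (AddSubgroup.zmultiples α₁) hpZ
    hprim hN hne Finset.univ
  let M : Submodule k (W → R) :=
    { carrier := {Ψ | Ψ ∈ N1 (A p) (ω p) E ∧ (∀ w, w - w₀ ∉ AddSubgroup.zmultiples α₁ → Ψ w = 0) ∧
        ∀ a, ω a ∉ AddSubgroup.zmultiples α₁ → Sh (A a) (ω a) Ψ = 0}
      zero_mem' := ⟨Submodule.zero_mem _, fun _ _ => rfl, fun _ _ => map_zero _⟩
      add_mem' := by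
        rintro Ψ Ξ ⟨g1, g2, g3⟩ ⟨k1, k2, k3⟩
        refine ⟨Submodule.add_mem _ g1 k1, fun w hw => ?_, fun a ha => ?_⟩
        · rw [Pi.add_apply, g2 w hw, k2 w hw, add_zero]
        · rw [map_add, g3 a ha, k3 a ha, add_zero]
      smul_mem' := by
        rintro c Ψ ⟨g1, g2, g3⟩
        refine ⟨Submodule.smul_mem _ c g1, fun w hw => ?_, fun a ha => ?_⟩
        · rw [Pi.smul_apply, g2 w hw, smul_zero]
        · rw [map_smul, g3 a ha, smul_zero] }
  have hMle : M ≤ N1 (A p) (ω p) E := fun Ψ hΨ => hΨ.1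
  have hMfin : FiniteDimensional k M := Submodule.finiteDimensional_of_le hMle
  have hΦM : Φ ∈ M := by
    refine ⟨h1, fun w hw => ?_, fun a ha => h4 a (Finset.mem_univ a) ha⟩
    by_contra h5
    exact hw (h3 w h5)
  have hMne : M ≠ ⊥ := (Submodule.ne_bot_iff _).2 ⟨Φ, hΦM, h2⟩
  have hstab : ∀ a ∈ (Finset.univ.filter fun a => ω a ∈ AddSubgroup.zmultiples α₁),
      ∀ f ∈ M, Sh (A a) (ω a) f ∈ M := by
    intro a ha f hf
    have haZ : ω a ∈ AddSubgroup.zmultiples α₁ := (Finset.mem_filter.1 ha).2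
    obtain ⟨g1, g2, g3⟩ := hf
    refine ⟨eig_mem A ω E hE hcomm p a g1, fun w hw => ?_, fun b hb => ?_⟩
    · rw [Sh_apply]
      have h5 : f (w - ω a) = 0 := by
        apply g2
        intro h6
        apply hw
        have h7 : w - w₀ = (w - ω a - w₀) + ω a := by abel
        rw [h7]
        exact AddSubgroup.add_mem _ h6 haZ
      rw [h5, map_zero]
    · rw [eig_comm A ω E hcomm b a g1.1, g3 b hb, map_zero]
  obtain ⟨Ψ, hΨ, hΨ0, χ, hχ⟩ := exists_common_eigenvector (fun a => Sh (A a) (ω a))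
    (Finset.univ.filter fun a => ω a ∈ AddSubgroup.zmultiples α₁) M hMfin hMne hstab
    (fun a _ b _ f hf => eig_comm A ω E hcomm a b hf.1.1)
  refine ⟨Ψ, w₀, χ, hΨ.1, hΨ0, fun w hw => ?_, hΨ.2.2, fun a ha => ?_⟩
  · by_contra h5
    exact hw (hΨ.2.1 w h5)
  · exact hχ a (Finset.mem_filter.2 ⟨Finset.mem_univ a, ha⟩)

end Pool.Agent.Helper30.SV
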