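import Pool.Agent.Helper30.SV.N1Defs

set_option autoImplicit false

/-! Module KS-N1Fin. Finiteness of the space `N₁` (pure linear algebra, 120 lines).

PROOF of `fin_comp`. Fix `w`, put `K n = E w ⊓ ker (X ^ n)`. `X ^ n` maps `K (n + 1)` into
`E (w + n • α) ⊓ ker X` with kernel `K n`, so by induction all `K n` are finite dimensional
(`hfin.2`). The set `{w' | E w' ⊓ ker X ≠ ⊥}` is finite (`hfin.1`) and `n ↦ w + n • α` is injective
(`hα`), so there is `n₀` with `E (w + n • α) ⊓ ker X = ⊥` for all `n ≥ n₀`; so `K (n + 1) = K n` for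
`n ≥ n₀`, and `E w = ⋃ K n = K n₀` by local nilpotency.

PROOF of `fin_N1`. Let `F` be the finite set `{w | E w ⊓ ker X ≠ ⊥}`. The restriction map
`N1 X α E → ∏_{w ∈ F} E w`, `Φ ↦ (Φ w)_{w ∈ F}` is injective: if `Φ ≠ 0`, say `Φ w ≠ 0`, let `n` be the
smallest natural number with `Φ (w + n • α) = 0` (`n ≥ 1`); then
`X (Φ (w + (n - 1) • α)) = Φ (w + n • α) = 0`, so `0 ≠ Φ (w + (n - 1) • α) ∈ E _ ⊓ ker X`. The target is
finite dimensional by `fin_comp`. -/

namespace Pool.Agent.Helper30.SV

theorem fin_comp {k R W : Type*} [Field k] [AddCommGroup R] [Module k R] [AddCommGroup W]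
    (X : Module.End k R) (α : W) (E : W → Submodule k R)
    (hα : ∀ n : ℤ, n • α = 0 → n = 0)
    (hE : ∀ w, ∀ f ∈ E w, X f ∈ E (w + α))
    (hnil : ∀ w, ∀ f ∈ E w, ∃ n : ℕ, (X ^ n) f = 0)
    (hfin : GFin fun w => E w ⊓ LinearMap.ker X) (w : W) : FiniteDimensional k (E w) := by
  have hpow : ∀ (n : ℕ) (f : R), f ∈ E w → (X ^ n) f ∈ E (w + n • α) := by
    intro n f hf
    induction n with
    | zero => simpa using hf
    | succ n ih =>
      have h1 := hE _ _ ih
      have e1 : (X ^ (n + 1)) f = X ((X ^ n) f) := by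
        rw [pow_succ']
        rfl
      have e2 : w + (n + 1) • α = w + n • α + α := by
        rw [succ_nsmul, add_assoc]
      rw [e1, e2]
      exact h1
  have hKer : ∀ (n : ℕ) (f : R), f ∈ E w → (X ^ (n + 1)) f = 0 →
      (X ^ n) f ∈ E (w + n • α) ⊓ LinearMap.ker X := by
    intro n f hf h0
    refine ⟨hpow n f hf, LinearMap.mem_ker.2 ?_⟩
    rw [← h0, pow_succ']
    rfl
  have hK : ∀ n : ℕ, (E w ⊓ LinearMap.ker (X ^ n)).FG := by
    intro n
    induction n with
    | zero =>
      have e1 : E w ⊓ LinearMap.ker (X ^ 0) = ⊥ := by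
        rw [eq_bot_iff]
        rintro f ⟨_, hf⟩
        have hf' : (X ^ 0) f = 0 := LinearMap.mem_ker.1 hf
        rw [pow_zero] at hf'
        exact (Submodule.mem_bot k).2 hf'
      rw [e1]
      exact Submodule.fg_bot
    | succ n ih =>
      apply Submodule.fg_of_fg_map_of_fg_inf_ker (X ^ n)
      · have h2 : FiniteDimensional k ((fun w => E w ⊓ LinearMap.ker X) (w + n • α)) :=
          hfin.2 (w + n • α)
        have h3 : Submodule.map (X ^ n) (E w ⊓ LinearMap.ker (X ^ (n + 1))) ≤
            E (w + n • α) ⊓ LinearMap.ker X := by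
          rintro g ⟨f, ⟨hf, hf0⟩, rfl⟩
          exact hKer n f hf (LinearMap.mem_ker.1 hf0)
        have h4 : FiniteDimensional k (E (w + n • α) ⊓ LinearMap.ker X : Submodule k R) := h2
        have h5 := Submodule.finiteDimensional_of_le h3
        exact (Module.Finite.iff_fg).1 h5
      · have h3 : E w ⊓ LinearMap.ker (X ^ (n + 1)) ⊓ LinearMap.ker (X ^ n) =
            E w ⊓ LinearMap.ker (X ^ n) := by
          ext f
          simp only [Submodule.mem_inf, LinearMap.mem_ker]
          constructor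
          · rintro ⟨⟨h1, _⟩, h2⟩
            exact ⟨h1, h2⟩
          · rintro ⟨h1, h2⟩
            refine ⟨⟨h1, ?_⟩, h2⟩
            rw [pow_succ']
            change X ((X ^ n) f) = 0
            rw [h2, map_zero]
        rw [h3]
        exact ih
  have hinj : Function.Injective fun n : ℕ => w + n • α := by
    intro m n hmn
    have h1 : m • α = n • α := add_left_cancel hmn
    have h2 : ((m : ℤ) - (n : ℤ)) • α = 0 := by
      rw [sub_smul, natCast_zsmul, natCast_zsmul, h1, sub_self]
    have h3 := hα _ h2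
    omega
  have hfinset : {n : ℕ | E (w + n • α) ⊓ LinearMap.ker X ≠ ⊥}.Finite := by
    have h1 := hfin.1.preimage (f := fun n : ℕ => w + n • α) hinj.injOn
    exact h1
  obtain ⟨n0, hn0⟩ := hfinset.bddAbove
  have hbot : ∀ n : ℕ, n0 < n → E (w + n • α) ⊓ LinearMap.ker X = ⊥ := by
    intro n hn
    by_contra hne
    exact absurd (hn0 hne) (not_le.2 hn)
  have hstab : ∀ (j : ℕ) (f : R), f ∈ E w → (X ^ (n0 + 1 + j)) f = 0 → (X ^ (n0 + 1)) f = 0 := by
    intro j
    induction j with
    | zero => intro f _ h; exact h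
    | succ j ih =>
      intro f hf h
      apply ih f hf
      have h1 := hKer (n0 + 1 + j) f hf h
      rw [hbot (n0 + 1 + j) (by omega)] at h1
      exact (Submodule.mem_bot k).1 h1
  have hle : E w ≤ E w ⊓ LinearMap.ker (X ^ (n0 + 1)) := by
    intro f hf
    obtain ⟨n, hn⟩ := hnil w f hf
    refine ⟨hf, LinearMap.mem_ker.2 (hstab n f hf ?_)⟩
    rw [pow_add]
    change (X ^ (n0 + 1)) ((X ^ n) f) = 0
    rw [hn, map_zero]
  have hfd : FiniteDimensional k (E w ⊓ LinearMap.ker (X ^ (n0 + 1)) : Submodule k R) :=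
    (Module.Finite.iff_fg).2 (hK (n0 + 1))
  exact Submodule.finiteDimensional_of_le hle

theorem fin_N1 {k R W : Type*} [Field k] [AddCommGroup R] [Module k R] [AddCommGroup W]
    (X : Module.End k R) (α : W) (E : W → Submodule k R)
    (hα : ∀ n : ℤ, n • α = 0 → n = 0)
    (hE : ∀ w, ∀ f ∈ E w, X f ∈ E (w + α))
    (hnil : ∀ w, ∀ f ∈ E w, ∃ n : ℕ, (X ^ n) f = 0)
    (hfin : GFin fun w => E w ⊓ LinearMap.ker X) : FiniteDimensional k (N1 X α E) := by
  classical
  have hcomp := fin_comp X α E hα hE hnil hfin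
  let φ : N1 X α E →ₗ[k] ((w : hfin.1.toFinset) → E w) :=
    { toFun := fun Φ w => ⟨(Φ : W → R) w, Φ.2.1 w⟩
      map_add' := fun F G => rfl
      map_smul' := fun c F => rfl }
  have hφ : Function.Injective φ := by
    rw [← LinearMap.ker_eq_bot, LinearMap.ker_eq_bot']
    intro Φ h0
    apply Subtype.ext
    funext w
    by_contra hne
    have hne' : (Φ : W → R) w ≠ 0 := hne
    have hex := Φ.2.2.2 w
    set n := Nat.find hex with hn
    have hn1 : (Φ : W → R) (w + n • α) = 0 := Nat.find_spec hex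
    have hn2 : n ≠ 0 := by
      intro h
      rw [h, zero_smul, add_zero] at hn1
      exact hne' hn1
    obtain ⟨m, hm⟩ := Nat.exists_eq_succ_of_ne_zero hn2
    have hm1 : (Φ : W → R) (w + m • α) ≠ 0 := by
      apply Nat.find_min hex
      omega
    have hm2 : X ((Φ : W → R) (w + m • α)) = 0 := by
      rw [Φ.2.2.1, ← hn1, hm, Nat.succ_eq_add_one, succ_nsmul, add_assoc]
    have hmem : w + m • α ∈ hfin.1.toFinset := by
      rw [Set.Finite.mem_toFinset]
      change E (w + m • α) ⊓ LinearMap.ker X ≠ ⊥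
      intro hbot
      have h1 : (Φ : W → R) (w + m • α) ∈ E (w + m • α) ⊓ LinearMap.ker X :=
        ⟨Φ.2.1 _, LinearMap.mem_ker.2 hm2⟩
      rw [hbot] at h1
      exact hm1 ((Submodule.mem_bot k).1 h1)
    have h3 := congrFun h0 ⟨w + m • α, hmem⟩
    exact hm1 (congrArg Subtype.val h3)
  have := fun w : hfin.1.toFinset => hcomp w
  exact Module.Finite.of_injective φ hφ

end Pool.Agent.Helper30.SV
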