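import Pool.Agent.Helper30.SV.N1Eig

set_option autoImplicit false

/-! Module KS-N1Seq. The eigensequence (100 lines; imports are black boxes).

PROOF. Take `Φ`, `w₀`, `χ` of `exists_eigenfun`; `X = A p`, `α = ω p = d • α₁`. (iv) The set of all `r : ℤ` with
`Φ (w₀ + r • α₁) ≠ 0` is not empty (`Φ ≠ 0` and the support condition) and bounded above: for each of the `d` classes
`j = 0, ..., d - 1` there is `n_j : ℕ` with `Φ (w₀ + j • α₁ + n_j • α) = 0`, and then `Φ (w₀ + j • α₁ + n • α) = 0` for all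
`n ≥ n_j` by `X (Φ w) = Φ (w + α)`; so `Φ (w₀ + r • α₁) = 0` for all `r ≥ d * (max n_j)` (write `r = j + n d`). Let `r₁` be its maximum
(`Int.exists_greatest_of_bdd`), `w₁ = w₀ + r₁ • α₁`, `Ψ r = Φ (w₁ - r • α₁)` for `r : ℕ`; `Φ (w₁ + r • α₁) = 0` for `r ≥ 1`.
(v) For `a` with `ω a ∉ Z` we have `Sh (A a) (ω a) Φ = 0`, so `A a (Ψ r) = 0` (evaluate at `w₁ - r • α₁ + ω a`): take `n a = 1`, the new
`χ a = 0`. For `ω a = j • α₁` (`j : ℤ`), the equation `Sh (A a) (ω a) Φ = χ a • Φ` at the weight `w₁ - r • α₁ + j • α₁` reads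
`A a (Ψ r) = χ a • Φ (w₁ - (r - j) • α₁)`. If `j > 0` this is the assertion with `n a = j` (for `r < j` the right side is zero). If
`j = 0`: `A a (Ψ 0) = χ a • Ψ 0` and local nilpotency give `χ a = 0`, so `A a (Ψ r) = 0` for all `r` and we take `n a = 1`, new
`χ a = 0`. If `j < 0`: for `r = - j` replaced in `A a (Φ (w₁ - r • α₁)) = χ a • Φ (w₁ - (r - j) • α₁)` with `r = j` (so `w₁ - j • α₁ = w₁ + |j| • α₁`)
the left side is `A a 0 = 0` and the right side is `χ a • Φ w₁`, so `χ a = 0` and again `A a (Ψ r) = 0`, `n a = 1`. For `a = p`, `j = d` (unique by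
`hα₁`), and `X (Φ w) = Φ (w + α)` says `Sh X α Φ = Φ`, so `χ p • Φ = Φ`, `χ p = 1`. -/

namespace Pool.Agent.Helper30.SV

private lemma n1_van {k R W : Type*} [Field k] [AddCommGroup R] [Module k R] [AddCommGroup W]
    {X : Module.End k R} {α : W} {Φ : W → R} (h : ∀ w, X (Φ w) = Φ (w + α)) (w : W) (n : ℕ)
    (hn : Φ (w + n • α) = 0) (j : ℕ) : Φ (w + (n + j) • α) = 0 := by
  induction j with
  | zero => exact hn
  | succ j ih =>
    have h4 := h (w + (n + j) • α)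
    rw [ih, map_zero] at h4
    have h5 : w + (n + (j + 1)) • α = w + (n + j) • α + α := by
      rw [← add_assoc n j 1, succ_nsmul, add_assoc]
    rw [h5, ← h4]

private lemma n1_greatest {k R W : Type*} [Field k] [AddCommGroup R] [Module k R] [AddCommGroup W]
    {X : Module.End k R} {α₁ : W} {d : ℕ} (hd : 0 < d) {Φ : W → R}
    (h : ∀ w, X (Φ w) = Φ (w + d • α₁)) (hv : ∀ w, ∃ n : ℕ, Φ (w + n • (d • α₁)) = 0)
    {w₀ : W} (hsupp : ∀ w, Φ w ≠ 0 → w - w₀ ∈ AddSubgroup.zmultiples α₁) (hΦ : Φ ≠ 0) :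
    ∃ w₁ : W, Φ w₁ ≠ 0 ∧ ∀ z : ℤ, 0 < z → Φ (w₁ + z • α₁) = 0 := by
  obtain ⟨w, hw⟩ := Function.ne_iff.mp hΦ
  obtain ⟨r₀, hr₀⟩ := AddSubgroup.mem_zmultiples_iff.mp (hsupp w hw)
  choose n hn using fun j : ℕ => hv (w₀ + (j : ℤ) • α₁)
  set B := (Finset.range d).sup n with hB
  have hd' : (0 : ℤ) < d := by exact_mod_cast hd
  have hbd : ∀ z : ℤ, Φ (w₀ + z • α₁) ≠ 0 → z ≤ (d : ℤ) * B := by
    intro z hz
    by_contra hlt
    rw [not_le] at hlt
    apply hz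
    obtain ⟨j, hj⟩ := Int.eq_ofNat_of_zero_le (Int.emod_nonneg z hd'.ne')
    have hjd : j < d := by
      have := Int.emod_lt_of_pos z hd'
      rw [hj] at this
      exact_mod_cast this
    have hnj : n j ≤ B := Finset.le_sup (f := n) (Finset.mem_range.mpr hjd)
    have hq : (B : ℤ) ≤ z / d := by
      rw [Int.le_ediv_iff_mul_le hd']
      rw [mul_comm]
      exact hlt.le
    obtain ⟨i, hi⟩ : ∃ i : ℕ, z / d = ((n j + i : ℕ) : ℤ) := by
      refine ⟨(z / d - n j).toNat, ?_⟩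
      push_cast
      rw [Int.toNat_of_nonneg]
      · ring
      · have : ((n j : ℕ) : ℤ) ≤ B := by exact_mod_cast hnj
        linarith
    have h1 := n1_van h (w₀ + (j : ℤ) • α₁) (n j) (hn j) i
    have h2 : w₀ + z • α₁ = w₀ + (j : ℤ) • α₁ + (n j + i) • (d • α₁) := by
      have h3 : z = (j : ℤ) + ((n j + i : ℕ) : ℤ) * d := by
        have := Int.emod_add_mul_ediv z d
        rw [hj, hi] at this
        rw [← this]
        ring
      rw [h3, add_zsmul, mul_zsmul, natCast_zsmul α₁ d, natCast_zsmul, natCast_zsmul, ← add_assoc]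
    rw [h2, h1]
  obtain ⟨r₁, h1, h2⟩ := Int.exists_greatest_of_bdd (P := fun z => Φ (w₀ + z • α₁) ≠ 0) ⟨_, hbd⟩
    ⟨r₀, by
      have h3 : w₀ + r₀ • α₁ = w := by
        rw [hr₀]
        abel
      change Φ (w₀ + r₀ • α₁) ≠ 0
      rw [h3]
      exact hw⟩
  refine ⟨w₀ + r₁ • α₁, h1, fun z hz => ?_⟩
  by_contra hne
  have h3 : w₀ + r₁ • α₁ + z • α₁ = w₀ + (r₁ + z) • α₁ := by
    rw [add_zsmul, add_assoc]
  rw [h3] at hne
  have := h2 (r₁ + z) hne
  linarith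

private lemma n1_shift {R W : Type*} [AddCommGroup R] [AddCommGroup W] {α₁ : W} {Φ : W → R}
    {w₁ : W} (h : ∀ z : ℤ, 0 < z → Φ (w₁ + z • α₁) = 0) (r j : ℕ) :
    Φ (w₁ - r • α₁ + j • α₁) = if j ≤ r then Φ (w₁ - (r - j) • α₁) else 0 := by
  split_ifs with hjr
  · congr 1
    obtain ⟨i, rfl⟩ := Nat.exists_eq_add_of_le hjr
    rw [Nat.add_sub_cancel_left, add_nsmul]
    abel
  · have h1 : w₁ - r • α₁ + j • α₁ = w₁ + ((j : ℤ) - r) • α₁ := by
      rw [sub_zsmul, natCast_zsmul, natCast_zsmul]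
      abel
    rw [h1]
    exact h _ (by omega)

theorem exists_eigen {k R W : Type*} [Field k] [IsAlgClosed k] [AddCommGroup R] [Module k R]
    [AddCommGroup W] {m : ℕ} (A : Fin m → Module.End k R) (ω : Fin m → W)
    (E : W → Submodule k R) (hE : ∀ a w, ∀ f ∈ E w, A a f ∈ E (w + ω a))
    (hcomm : ∀ a b w, ∀ f ∈ E w, A a (A b f) = A b (A a f))
    (hnil : ∀ a w, ∀ f ∈ E w, ∃ n : ℕ, ((A a) ^ n) f = 0)
    (p : Fin m) (α₁ : W) (d : ℕ) (hd : 0 < d) (hα : ω p = d • α₁)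
    (hα₁ : ∀ n : ℤ, n • α₁ = 0 → n = 0)
    (hprim : ∀ (n : ℤ) (w : W), n ≠ 0 → n • w ∈ AddSubgroup.zmultiples α₁ →
      w ∈ AddSubgroup.zmultiples α₁)
    (hfin : GFin fun w => E w ⊓ LinearMap.ker (A p)) (hinf : ¬ GFin E) :
    ∃ (Ψ : ℕ → R) (w₁ : W) (χ : Fin m → k) (n : Fin m → ℕ), Ψ 0 ≠ 0 ∧
      (∀ r : ℕ, Ψ r ∈ E (w₁ - r • α₁)) ∧ (∀ a, 0 < n a) ∧
      (∀ a r, A a (Ψ r) = if n a ≤ r then χ a • Ψ (r - n a) else 0) ∧ χ p = 1 ∧ n p = d := by
  classical
  obtain ⟨Φ, w₀, χ, ⟨hN1, hN2, hN3⟩, hΦ0, hsupp, hkill, heig⟩ :=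
    exists_eigenfun A ω E hE hcomm hnil p α₁ d hd hα hα₁ hprim hfin hinf
  obtain ⟨w₁, hw₁, hz⟩ := n1_greatest hd (fun w => by rw [← hα]; exact hN2 w)
    (fun w => by rw [← hα]; exact hN3 w) hsupp hΦ0
  have key : ∀ a, ∃ (c : k) (n : ℕ), 0 < n ∧ (∀ r : ℕ, A a (Φ (w₁ - r • α₁)) =
      if n ≤ r then c • Φ (w₁ - (r - n) • α₁) else 0) ∧ (a = p → c = 1 ∧ n = d) := by
    intro a
    by_cases hap : a = p
    · subst hap
      refine ⟨1, d, hd, fun r => ?_, fun _ => ⟨rfl, rfl⟩⟩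
      rw [hN2, hα, n1_shift hz r d]
      simp only [one_smul]
    -- it is enough that `A a` kills all values
    have hzero : (∀ w, A a (Φ w) = 0) → ∃ (c : k) (n : ℕ), 0 < n ∧
        (∀ r : ℕ, A a (Φ (w₁ - r • α₁)) =
          if n ≤ r then c • Φ (w₁ - (r - n) • α₁) else 0) ∧ (a = p → c = 1 ∧ n = d) := by
      intro h
      refine ⟨0, 1, one_pos, fun r => ?_, fun h' => absurd h' hap⟩
      rw [h, zero_smul, ite_self]
    by_cases hmem : ω a ∈ AddSubgroup.zmultiples α₁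
    swap
    · apply hzero
      intro w
      have h1 := congrFun (hkill a hmem) (w + ω a)
      rw [Sh_apply, add_sub_cancel_right] at h1
      exact h1
    have hval : ∀ w, A a (Φ w) = χ a • Φ (w + ω a) := by
      intro w
      have h1 := congrFun (heig a hmem) (w + ω a)
      rw [Sh_apply, add_sub_cancel_right] at h1
      exact h1
    have hzero' : χ a = 0 → ∃ (c : k) (n : ℕ), 0 < n ∧
        (∀ r : ℕ, A a (Φ (w₁ - r • α₁)) =
          if n ≤ r then c • Φ (w₁ - (r - n) • α₁) else 0) ∧ (a = p → c = 1 ∧ n = d) :=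
      fun h => hzero fun w => by rw [hval, h, zero_smul]
    obtain ⟨j, hj⟩ := AddSubgroup.mem_zmultiples_iff.mp hmem
    rcases lt_trichotomy j 0 with hj0 | hj0 | hj0
    · apply hzero'
      have h1 := hval (w₁ + (-j) • α₁)
      rw [hz (-j) (by omega), map_zero, ← hj, add_assoc, ← add_zsmul, neg_add_cancel, zero_zsmul,
        add_zero] at h1
      exact (smul_eq_zero.mp h1.symm).resolve_right hw₁
    · apply hzero'
      have h1 : A a (Φ w₁) = χ a • Φ w₁ := by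
        have := hval w₁
        rwa [← hj, hj0, zero_zsmul, add_zero] at this
      have h2 : ∀ n : ℕ, ((A a) ^ n) (Φ w₁) = (χ a) ^ n • Φ w₁ := by
        intro n
        induction n with
        | zero => simp
        | succ n ih =>
          rw [pow_succ', Module.End.mul_apply, ih, map_smul, h1, smul_smul, pow_succ]
      obtain ⟨n, hn⟩ := hnil a w₁ _ (hN1 w₁)
      rw [h2 n] at hn
      by_contra hne
      exact pow_ne_zero n hne ((smul_eq_zero.mp hn).resolve_right hw₁)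
    · obtain ⟨n, rfl⟩ := Int.eq_ofNat_of_zero_le hj0.le
      refine ⟨χ a, n, by exact_mod_cast hj0, fun r => ?_, fun h' => absurd h' hap⟩
      rw [hval, ← hj, natCast_zsmul, n1_shift hz r n]
      split_ifs
      · rfl
      · rw [smul_zero]
  choose c n hn0 hn hp using key
  refine ⟨fun r => Φ (w₁ - r • α₁), w₁, c, n, ?_, fun r => hN1 _, hn0, hn, (hp p rfl).1,
    (hp p rfl).2⟩
  change Φ (w₁ - 0 • α₁) ≠ 0
  rw [zero_nsmul, sub_zero]
  exact hw₁

end Pool.Agent.Helper30.SV
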