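import Pool.Agent.Helper30.SV.N1Seq
import Pool.Agent.Helper30.SV.LogDer
import Pool.Agent.Helper93.KS.LemmaP

set_option autoImplicit false

/-! Project KS, step (3) of the heart: derivations of nonzero weight. -/

namespace Pool.Agent.Helper30.SV

open Pool.Agent.Helper87.KS

/-- A nonzero element of a subgroup of `ℤ^J` is a positive multiple of an element `α` such that
`ℤ α` is saturated. -/
theorem exists_primitive {J : Type*} (W : AddSubgroup (J → ℤ)) (ω : W) (hω : ω ≠ 0) :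
    ∃ (α : W) (d : ℕ), 0 < d ∧ ω = d • α ∧ ∀ (n : ℤ) (w : W), n ≠ 0 →
      n • w ∈ AddSubgroup.zmultiples α → w ∈ AddSubgroup.zmultiples α := by
  classical
  obtain ⟨i, hi⟩ : ∃ i, (ω : J → ℤ) i ≠ 0 := by
    by_contra hcon
    push Not at hcon
    exact hω (Subtype.ext (funext hcon))
  let φ : W →+ ℤ :=
    { toFun := fun w => (w : J → ℤ) i
      map_zero' := rfl
      map_add' := fun w w' => rfl }
  have hφ : ∀ w : W, φ w = (w : J → ℤ) i := fun w => rfl
  let W₁ : AddSubgroup W :=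
    { carrier := {w | ∃ n t : ℤ, n ≠ 0 ∧ n • w = t • ω}
      zero_mem' := ⟨1, 0, one_ne_zero, by simp⟩
      add_mem' := by
        rintro w w' ⟨n, t, hn, h⟩ ⟨n', t', hn', h'⟩
        refine ⟨n * n', n' * t + n * t', mul_ne_zero hn hn', ?_⟩
        rw [smul_add, mul_comm n n', mul_smul, h, mul_comm n' n, mul_smul, h', smul_smul, smul_smul,
          ← add_smul]
      neg_mem' := by
        rintro w ⟨n, t, hn, h⟩
        exact ⟨n, -t, hn, by rw [smul_neg, h, neg_smul]⟩ }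
  have hinj : ∀ w ∈ W₁, φ w = 0 → w = 0 := by
    rintro w ⟨n, t, hn, h⟩ hw
    have h1 := congrArg φ h
    rw [map_zsmul, map_zsmul, hw, smul_zero, smul_eq_mul] at h1
    have ht : t = 0 := by
      rcases mul_eq_zero.1 h1.symm with h2 | h2
      · exact h2
      · exact absurd h2 hi
    rw [ht, zero_smul] at h
    apply Subtype.ext
    funext j
    have h2 := congrFun (congrArg Subtype.val h) j
    have h3 : n * (w : J → ℤ) j = 0 := by simpa using h2
    exact (mul_eq_zero.1 h3).resolve_left hn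
  obtain ⟨a, ha⟩ := Int.subgroup_cyclic (W₁.map φ)
  have haH : a ∈ W₁.map φ := by
    rw [ha]
    exact AddSubgroup.subset_closure rfl
  obtain ⟨g, hg, hga⟩ := haH
  have hspan : ∀ w ∈ W₁, ∃ s : ℤ, w = s • g := by
    intro w hw
    have h1 : φ w ∈ W₁.map φ := ⟨w, hw, rfl⟩
    rw [ha, AddSubgroup.mem_closure_singleton] at h1
    obtain ⟨s, hs⟩ := h1
    refine ⟨s, ?_⟩
    have h2 : w - s • g = 0 := by
      apply hinj
      · exact W₁.sub_mem hw (W₁.zsmul_mem hg s)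
      · rw [map_sub, map_zsmul, hga, hs, sub_self]
    exact sub_eq_zero.1 h2
  have hωW : ω ∈ W₁ := ⟨1, 1, one_ne_zero, rfl⟩
  obtain ⟨s, hs⟩ := hspan ω hωW
  have hs0 : s ≠ 0 := by
    rintro rfl
    exact hω (by rw [hs, zero_smul])
  have hsign : s.sign * s.sign = 1 := by
    rcases lt_or_gt_of_ne hs0 with h | h
    · rw [Int.sign_eq_neg_one_of_neg h]; rfl
    · rw [Int.sign_eq_one_of_pos h]; rfl
  have hgα : g = s.sign • (s.sign • g) := by rw [smul_smul, hsign, one_smul]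
  have hωd : ω = s.natAbs • (s.sign • g) := by
    rw [← natCast_zsmul, smul_smul, mul_comm, Int.sign_mul_natAbs, ← hs]
  refine ⟨s.sign • g, s.natAbs, Int.natAbs_pos.2 hs0, hωd, ?_⟩
  intro n w hn hw
  obtain ⟨t, ht⟩ := AddSubgroup.mem_zmultiples_iff.1 hw
  have hwW : w ∈ W₁ := by
    refine ⟨(s.natAbs : ℤ) * n, t, mul_ne_zero (by exact_mod_cast (Int.natAbs_pos.2 hs0).ne') hn, ?_⟩
    rw [mul_smul, ← ht, smul_comm, natCast_zsmul, ← hωd]
  obtain ⟨s', hs'⟩ := hspan w hwW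
  rw [AddSubgroup.mem_zmultiples_iff]
  refine ⟨s' * s.sign, ?_⟩
  rw [mul_smul, ← hgα, ← hs']

theorem heart_step {k R J : Type*} [Field k] [IsAlgClosed k] [CharZero k] [CommRing R] [IsDomain R]
    [Algebra k R] {m : ℕ} {W : AddSubgroup (J → ℤ)} (F : Fam k R m W) {v : J → RVal k R}
    (hW : Pointed W) (hNC : NoConst v W) (b : J → ℤ) (E : W → Submodule k R)
    (hEb : ∀ ω : W, E ω ≤ Eb v b (ω : J → ℤ))
    (hE : ∀ a ω, ∀ f ∈ E ω, F.δ a f ∈ E (ω + F.ω a))
    (hcomm : ∀ a c ω, ∀ f ∈ E ω, F.δ a (F.δ c f) = F.δ c (F.δ a f))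
    (p : Fin m) (hp : F.ω p ≠ 0)
    (hfin : Pool.Agent.Helper87.KS.GFin fun ω => E ω ⊓ LinearMap.ker (F.δ p : R →ₗ[k] R)) :
    Pool.Agent.Helper87.KS.GFin E := by
  classical
  by_contra hinf
  obtain ⟨α, d, hd, hα, hprim⟩ := exists_primitive W (F.ω p) hp
  have hα0 : α ≠ 0 := by
    rintro rfl
    exact hp (by rw [hα, smul_zero])
  have hαtor : ∀ n : ℤ, n • α = 0 → n = 0 := by
    intro n hn
    by_contra hn0
    apply hα0
    apply Subtype.ext
    funext j
    have h2 := congrFun (congrArg Subtype.val hn) j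
    have h3 : n * (α : J → ℤ) j = 0 := by simpa using h2
    exact (mul_eq_zero.1 h3).resolve_left hn0
  obtain ⟨Ψ₀, w₁, χ, n, hΨ0, hΨE, hn, hΨ, hχp, hnp⟩ :=
    exists_eigen (fun a => ((F.δ a : R →ₗ[k] R) : Module.End k R)) F.ω E hE hcomm
      (fun a w f _ => by
        obtain ⟨N, hN⟩ := F.nil a f
        refine ⟨N, ?_⟩
        rw [Module.End.pow_apply]
        exact hN) p α d hd hα hαtor hprim hfin hinf
  -- the constant term
  obtain ⟨c₀, hc₀⟩ := F.ker (Ψ₀ 0) (fun a => by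
    have h1 := hΨ a 0
    rw [if_neg (by have := hn a; omega)] at h1
    exact h1)
  have hc₀0 : c₀ ≠ 0 := by
    rintro rfl
    exact hΨ0 (by rw [hc₀, map_zero])
  set Ψ : ℕ → R := fun r => c₀⁻¹ • Ψ₀ r with hΨdef
  have hΨ0' : Ψ 0 = 1 := by
    rw [hΨdef]
    change c₀⁻¹ • Ψ₀ 0 = 1
    rw [hc₀, Algebra.smul_def, ← map_mul, inv_mul_cancel₀ hc₀0, map_one]
  have hΨ' : ∀ a r, F.δ a (Ψ r) = if n a ≤ r then χ a • Ψ (r - n a) else 0 := by
    intro a r
    have h1 : F.δ a (Ψ₀ r) = if n a ≤ r then χ a • Ψ₀ (r - n a) else 0 := hΨ a r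
    change F.δ a (c₀⁻¹ • Ψ₀ r) = if n a ≤ r then χ a • (c₀⁻¹ • Ψ₀ (r - n a)) else 0
    rw [Derivation.map_smul, h1]
    split_ifs
    · rw [smul_comm]
    · rw [smul_zero]
  have hΨb : ∀ (i : J) (r : ℕ), (v i).Ge (r * (α : J → ℤ) i - (b i + (w₁ : J → ℤ) i))
      (PowerSeries.coeff r (PowerSeries.mk Ψ)) := by
    intro i r
    rw [PowerSeries.coeff_mk]
    have h1 := mem_Eb.1 (hEb _ (hΨE r)) i
    refine (h1.smul c₀⁻¹).mono (le_of_eq ?_)
    have h2 : ((w₁ - r • α : W) : J → ℤ) i = (w₁ : J → ℤ) i - r * (α : J → ℤ) i := by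
      simp
    rw [h2]
    ring
  have hpos : ∃ i, 0 < (α : J → ℤ) i := by
    by_contra hcon
    push Not at hcon
    apply hα0
    have h1 := hW (-α) (fun i => by
      have h2 := hcon i
      have h3 : ((-α : W) : J → ℤ) i = -((α : J → ℤ) i) := rfl
      rw [h3]
      omega)
    exact neg_eq_zero.1 h1
  obtain ⟨A, g, -, -, hd', hA⟩ := exists_logDer F.δ F.ker Ψ hΨ0' χ n hn hΨ'
  obtain ⟨c, hc⟩ := Pool.Agent.Helper93.KS.lemmaP v (fun i => (α : J → ℤ) i)
    (fun i => b i + (w₁ : J → ℤ) i) hpos (PowerSeries.mk Ψ) A g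
    (by rw [PowerSeries.coeff_mk, hΨ0']) hΨb
    (fun r => by rw [PowerSeries.coeff_mk]; exact hd' r)
  -- the element
  set f : R := A.coeff d + algebraMap k R (c d) with hf
  have hδf : F.δ p f = algebraMap k R d := by
    rw [hf, map_add, Derivation.map_algebraMap, add_zero]
    have h1 := hA p
    rw [hnp, hχp, mul_one] at h1
    exact h1
  have hf0 : f ≠ 0 := by
    intro h0
    rw [h0, map_zero] at hδf
    have h1 : ((d : ℕ) : k) = 0 := by
      apply (algebraMap k R).injective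
      rw [← hδf, map_zero]
    have h2 : d = 0 := by exact_mod_cast h1
    omega
  have hfE : f ∈ Eb v 0 ((-(d • α) : W) : J → ℤ) := by
    rw [mem_Eb]
    intro i
    refine (hc i d).mono (le_of_eq ?_)
    simp
  have h1 := (hNC _ f hfE hf0).1
  apply hp
  rw [hα]
  exact neg_eq_zero.1 h1

end Pool.Agent.Helper30.SV
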