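import Pool.Agent.Helper93.KN.Chain

set_option autoImplicit false

/-! Project KS, trace lemma. If an operator `X` with finite dimensional kernel is locally nilpotent,
commutes with a set of operators and is a combination of their commutators, then the space is
finite dimensional (characteristic zero). -/

namespace Pool.Agent.Helper30.SV

open Module

section

variable {k V : Type*} [Field k] [AddCommGroup V] [Module k V]

/-- The divisible part of `X`: first terms of sequences `F` with `X (F (m + 1)) = F m`. -/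
def divPart (X : Module.End k V) : Submodule k V where
  carrier := {v | ∃ F : ℕ → V, F 0 = v ∧ ∀ m, X (F (m + 1)) = F m}
  zero_mem' := ⟨fun _ => 0, rfl, fun _ => map_zero X⟩
  add_mem' := by
    rintro v w ⟨F, hF0, hF⟩ ⟨G, hG0, hG⟩
    exact ⟨fun m => F m + G m, by simp [hF0, hG0], fun m => by simp [hF m, hG m]⟩
  smul_mem' := by
    rintro c v ⟨F, hF0, hF⟩
    exact ⟨fun m => c • F m, by simp [hF0], fun m => by simp [hF m]⟩

lemma mem_divPart {X : Module.End k V} {v : V} :
    v ∈ divPart X ↔ ∃ F : ℕ → V, F 0 = v ∧ ∀ m, X (F (m + 1)) = F m := Iff.rfl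

lemma divPart_lift {X : Module.End k V} {v : V} (hv : v ∈ divPart X) :
    ∃ w ∈ divPart X, X w = v := by
  obtain ⟨F, hF0, hF⟩ := hv
  exact ⟨F 1, ⟨fun m => F (m + 1), rfl, fun m => hF (m + 1)⟩, by rw [hF 0, hF0]⟩

lemma divPart_stable {X A : Module.End k V} (hA : A * X = X * A) {v : V}
    (hv : v ∈ divPart X) : A v ∈ divPart X := by
  obtain ⟨F, hF0, hF⟩ := hv
  refine ⟨fun m => A (F m), congrArg A hF0, fun m => ?_⟩
  have h1 : (A * X) (F (m + 1)) = (X * A) (F (m + 1)) := by rw [hA]
  simp only [Module.End.mul_apply] at h1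
  rw [← h1, hF m]

/-- The operators commuting with `X`. -/
def comm (X : Module.End k V) : Submodule k (Module.End k V) where
  carrier := {A | A * X = X * A}
  zero_mem' := by simp
  add_mem' := by
    intro A B hA hB
    have hA' : A * X = X * A := hA
    have hB' : B * X = X * B := hB
    change (A + B) * X = X * (A + B)
    rw [add_mul, mul_add, hA', hB']
  smul_mem' := by
    intro c A hA
    have hA' : A * X = X * A := hA
    change (c • A) * X = X * (c • A)
    rw [smul_mul_assoc, mul_smul_comm, hA']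

lemma mem_comm {X A : Module.End k V} : A ∈ comm X ↔ A * X = X * A := Iff.rfl

end

theorem trace_lemma {k V : Type*} [Field k] [CharZero k] [AddCommGroup V] [Module k V]
    (𝒜 : Set (Module.End k V)) (X : Module.End k V)
    (hX : X ∈ Submodule.span k {Z | ∃ A ∈ 𝒜, ∃ B ∈ 𝒜, Z = A * B - B * A})
    (hcomm : ∀ A ∈ 𝒜, A * X = X * A)
    (hnil : ∀ f, ∃ m : ℕ, (X ^ m) f = 0)
    (hfin : FiniteDimensional k (LinearMap.ker X)) : FiniteDimensional k V := by
  classical
  by_contra hinf
  obtain ⟨C₀, hC1, hC2, hC3, -⟩ := Pool.Agent.Helper93.KN.exists_seq X ⊤ (fun f _ => Submodule.mem_top)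
    (fun f _ => hnil f) (by rw [top_inf_eq]; exact hfin)
    (fun h => hinf (Module.finite_def.2 (Module.Finite.iff_fg.1 h)))
  -- the section
  set D' := divPart X with hD'
  obtain ⟨s, hs⟩ : ∃ s : D' →ₗ[k] D', ∀ v : D', X (s v) = v := by
    let Xr : D' →ₗ[k] D' := X.restrict (fun v hv => divPart_stable rfl hv)
    have hsurj : Function.Surjective Xr := by
      rintro ⟨v, hv⟩
      obtain ⟨w, hw, hwv⟩ := divPart_lift hv
      exact ⟨⟨w, hw⟩, Subtype.ext hwv⟩
    obtain ⟨s, hs⟩ := Xr.exists_rightInverse_of_surjective (LinearMap.range_eq_top.2 hsurj)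
    refine ⟨s, fun v => ?_⟩
    have h1 := LinearMap.congr_fun hs v
    exact congrArg Subtype.val h1
  -- the kernel
  set C : Submodule k V := D' ⊓ LinearMap.ker X with hC
  have hCD : ∀ c : C, (c : V) ∈ D' := fun c => c.2.1
  have hCX : ∀ c : C, X (c : V) = 0 := fun c => c.2.2
  have : FiniteDimensional k C := Submodule.finiteDimensional_of_le inf_le_right
  let ι : C →ₗ[k] D' := Submodule.inclusion inf_le_left
  let S : C →ₗ[k] V := D'.subtype ∘ₗ s ∘ₗ ι
  have hS : ∀ c : C, X (S c) = c := fun c => hs (ι c)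
  have hSD : ∀ c : C, S c ∈ D' := fun c => (s (ι c)).2
  -- the two components
  let a0 : comm X →ₗ[k] Module.End k C :=
    { toFun := fun A => (A : Module.End k V).restrict (fun v hv =>
        ⟨divPart_stable A.2 hv.1, by
          have h1 : X v = 0 := hv.2
          have h2 : ((A : Module.End k V) * X) v = (X * (A : Module.End k V)) v := by
            rw [mem_comm.1 A.2]
          simp only [Module.End.mul_apply, h1, map_zero] at h2
          exact h2.symm⟩)
      map_add' := fun A B => by
        ext c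
        rfl
      map_smul' := fun t A => by
        ext c
        rfl }
  have ha0 : ∀ (A : comm X) (c : C), ((a0 A c : C) : V) = (A : Module.End k V) c := fun A c => rfl
  have hmem1 : ∀ (A : comm X) (c : C), (A : Module.End k V) (S c) - S (a0 A c) ∈ C := by
    intro A c
    refine ⟨D'.sub_mem (divPart_stable A.2 (hSD c)) (hSD _), ?_⟩
    change X ((A : Module.End k V) (S c) - S (a0 A c)) = 0
    have h2 : ((A : Module.End k V) * X) (S c) = (X * (A : Module.End k V)) (S c) := by
      rw [mem_comm.1 A.2]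
    simp only [Module.End.mul_apply] at h2
    rw [map_sub, ← h2, hS, hS, ha0, sub_self]
  let a1 : comm X →ₗ[k] Module.End k C :=
    { toFun := fun A =>
        { toFun := fun c => ⟨(A : Module.End k V) (S c) - S (a0 A c), hmem1 A c⟩
          map_add' := fun c c' => by
            apply Subtype.ext
            change (A : Module.End k V) (S (c + c')) - S (a0 A (c + c')) =
              ((A : Module.End k V) (S c) - S (a0 A c)) + ((A : Module.End k V) (S c') - S (a0 A c'))
            rw [map_add, map_add, map_add, map_add]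
            abel
          map_smul' := fun t c => by
            apply Subtype.ext
            change (A : Module.End k V) (S (t • c)) - S (a0 A (t • c)) =
              t • ((A : Module.End k V) (S c) - S (a0 A c))
            rw [map_smul, map_smul, map_smul, map_smul, smul_sub] }
      map_add' := fun A B => by
        ext c
        change ((A : Module.End k V) + B) (S c) - S (a0 (A + B) c) =
          ((A : Module.End k V) (S c) - S (a0 A c)) + ((B : Module.End k V) (S c) - S (a0 B c))
        rw [map_add a0, LinearMap.add_apply, LinearMap.add_apply, map_add S]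
        abel
      map_smul' := fun t A => by
        ext c
        change (t • (A : Module.End k V)) (S c) - S (a0 (t • A) c) =
          t • ((A : Module.End k V) (S c) - S (a0 A c))
        rw [map_smul a0, LinearMap.smul_apply, LinearMap.smul_apply, map_smul S, smul_sub] }
  have ha1 : ∀ (A : comm X) (c : C), ((a1 A c : C) : V) =
      (A : Module.End k V) (S c) - S (a0 A c) := fun A c => rfl
  -- the product rule
  have hmul : ∀ (A B : comm X) (h : (A : Module.End k V) * B ∈ comm X),
      a1 ⟨(A : Module.End k V) * B, h⟩ = a0 A * a1 B + a1 A * a0 B := by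
    intro A B h
    ext c
    have h0 : a0 ⟨(A : Module.End k V) * B, h⟩ c = a0 A (a0 B c) := rfl
    have h1 : ((a1 B c : C) : V) = (B : Module.End k V) (S c) - S (a0 B c) := ha1 B c
    change ((A : Module.End k V) * B) (S c) - S (a0 ⟨(A : Module.End k V) * B, h⟩ c) =
      (A : Module.End k V) (a1 B c : V) + ((A : Module.End k V) (S (a0 B c)) - S (a0 A (a0 B c)))
    rw [h0, h1, Module.End.mul_apply, map_sub]
    abel
  -- traces of commutators
  have key : ∀ Z ∈ Submodule.span k {Z | ∃ A ∈ 𝒜, ∃ B ∈ 𝒜, Z = A * B - B * A},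
      ∃ h : Z ∈ comm X, LinearMap.trace k C (a1 ⟨Z, h⟩) = 0 := by
    intro Z hZ
    induction hZ using Submodule.span_induction with
    | mem Z hZ =>
      obtain ⟨A, hA, B, hB, rfl⟩ := hZ
      have hAc : A ∈ comm X := hcomm A hA
      have hBc : B ∈ comm X := hcomm B hB
      have hAB : A * B ∈ comm X := by
        rw [mem_comm, mul_assoc, mem_comm.1 hBc, ← mul_assoc, mem_comm.1 hAc, mul_assoc]
      have hBA : B * A ∈ comm X := by
        rw [mem_comm, mul_assoc, mem_comm.1 hAc, ← mul_assoc, mem_comm.1 hBc, mul_assoc]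
      refine ⟨(comm X).sub_mem hAB hBA, ?_⟩
      have h1 : (⟨A * B - B * A, (comm X).sub_mem hAB hBA⟩ : comm X) =
          ⟨A * B, hAB⟩ - ⟨B * A, hBA⟩ := rfl
      rw [h1, map_sub, hmul ⟨A, hAc⟩ ⟨B, hBc⟩ hAB, hmul ⟨B, hBc⟩ ⟨A, hAc⟩ hBA, map_sub, map_add,
        map_add, LinearMap.trace_mul_comm k (a0 ⟨A, hAc⟩) (a1 ⟨B, hBc⟩),
        LinearMap.trace_mul_comm k (a1 ⟨A, hAc⟩) (a0 ⟨B, hBc⟩)]
      ring
    | zero =>
      refine ⟨(comm X).zero_mem, ?_⟩
      have h1 : (⟨0, (comm X).zero_mem⟩ : comm X) = 0 := rfl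
      rw [h1, map_zero, map_zero]
    | add Z Z' _ _ ih ih' =>
      obtain ⟨h, h1⟩ := ih
      obtain ⟨h', h1'⟩ := ih'
      refine ⟨(comm X).add_mem h h', ?_⟩
      have h2 : (⟨Z + Z', (comm X).add_mem h h'⟩ : comm X) = ⟨Z, h⟩ + ⟨Z', h'⟩ := rfl
      rw [h2, map_add, map_add, h1, h1', add_zero]
    | smul t Z _ ih =>
      obtain ⟨h, h1⟩ := ih
      refine ⟨(comm X).smul_mem t h, ?_⟩
      have h2 : (⟨t • Z, (comm X).smul_mem t h⟩ : comm X) = t • ⟨Z, h⟩ := rfl
      rw [h2, map_smul, map_smul, h1, smul_zero]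
  obtain ⟨h, htr⟩ := key X hX
  have hid : a1 ⟨X, h⟩ = LinearMap.id := by
    ext c
    rw [ha1]
    have h0 : a0 ⟨X, h⟩ c = 0 := by
      apply Subtype.ext
      rw [ha0]
      exact hCX c
    rw [h0, map_zero, sub_zero]
    exact hS c
  rw [hid, LinearMap.trace_id] at htr
  have hdim : Module.finrank k C = 0 := by exact_mod_cast htr
  rw [Submodule.finrank_eq_zero] at hdim
  obtain ⟨e, he, he0⟩ := (Submodule.ne_bot_iff _).1 hC2
  obtain ⟨F, hF0, -, hF⟩ := hC3 e he
  have he2 : e ∈ C := ⟨⟨F, hF0, hF⟩, (hC1 he).2⟩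
  rw [hdim, Submodule.mem_bot] at he2
  exact he0 he2

end Pool.Agent.Helper30.SV
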