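import Pool.Agent.Helper30.SV.Trace
import Pool.Agent.Helper87.KS.Defs

set_option autoImplicit false

/-! Project KS, trace lemma on a stable subspace. -/

namespace Pool.Agent.Helper30.SV

open Pool.Agent.Helper87.KS

/-- The trace lemma on a stable subspace. -/
theorem trace_step {k V : Type*} [Field k] [CharZero k] [AddCommGroup V] [Module k V]
    {E : Submodule k V} {𝒜 : Set (Module.End k V)} {X : Module.End k V}
    (hE : ∀ A ∈ 𝒜, ∀ f ∈ E, A f ∈ E) (hcomm : ∀ A ∈ 𝒜, ∀ f ∈ E, A (X f) = X (A f))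
    (hX : X ∈ Submodule.span k {B | ∃ A ∈ 𝒜, ∃ A' ∈ 𝒜, B = br A A'})
    (hnil : ∀ f ∈ E, ∃ n : ℕ, (X ^ n) f = 0)
    (hfin : FiniteDimensional k (E ⊓ LinearMap.ker X : Submodule k V)) :
    FiniteDimensional k E := by
  classical
  -- operators preserving `E`
  let St : Submodule k (Module.End k V) :=
    { carrier := {B | ∀ f ∈ E, B f ∈ E}
      zero_mem' := fun f _ => E.zero_mem
      add_mem' := fun {A B} hA hB f hf => E.add_mem (hA f hf) (hB f hf)
      smul_mem' := fun c A hA f hf => E.smul_mem c (hA f hf) }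
  let ρ : St →ₗ[k] Module.End k E :=
    { toFun := fun B => (B : Module.End k V).restrict B.2
      map_add' := fun A B => by
        ext f
        rfl
      map_smul' := fun c A => by
        ext f
        rfl }
  have hρ : ∀ (B : St) (f : E), ((ρ B f : E) : V) = (B : Module.End k V) f := fun B f => rfl
  set 𝒜' : Set (Module.End k E) := {B | ∃ A : St, (A : Module.End k V) ∈ 𝒜 ∧ B = ρ A} with h𝒜'
  have key : ∀ Z ∈ Submodule.span k {B | ∃ A ∈ 𝒜, ∃ A' ∈ 𝒜, B = br A A'},
      ∃ h : Z ∈ St, ρ ⟨Z, h⟩ ∈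
        Submodule.span k {Z | ∃ A ∈ 𝒜', ∃ B ∈ 𝒜', Z = A * B - B * A} := by
    intro Z hZ
    induction hZ using Submodule.span_induction with
    | mem Z hZ =>
      obtain ⟨A, hA, B, hB, rfl⟩ := hZ
      have h : br A B ∈ St := fun f hf => by
        change A (B f) - B (A f) ∈ E
        exact E.sub_mem (hE A hA _ (hE B hB f hf)) (hE B hB _ (hE A hA f hf))
      refine ⟨h, Submodule.subset_span ?_⟩
      refine ⟨ρ ⟨A, hE A hA⟩, ⟨⟨A, hE A hA⟩, hA, rfl⟩, ρ ⟨B, hE B hB⟩, ⟨⟨B, hE B hB⟩, hB, rfl⟩, ?_⟩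
      ext f
      rfl
    | zero => exact ⟨St.zero_mem, by
        have h1 : ρ ⟨0, St.zero_mem⟩ = 0 := by
          ext f
          rfl
        rw [h1]
        exact Submodule.zero_mem _⟩
    | add Z Z' _ _ ih ih' =>
      obtain ⟨h, h1⟩ := ih
      obtain ⟨h', h1'⟩ := ih'
      refine ⟨St.add_mem h h', ?_⟩
      have h2 : (⟨Z + Z', St.add_mem h h'⟩ : St) = ⟨Z, h⟩ + ⟨Z', h'⟩ := rfl
      rw [h2, map_add]
      exact Submodule.add_mem _ h1 h1'
    | smul t Z _ ih =>
      obtain ⟨h, h1⟩ := ih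
      refine ⟨St.smul_mem t h, ?_⟩
      have h2 : (⟨t • Z, St.smul_mem t h⟩ : St) = t • ⟨Z, h⟩ := rfl
      rw [h2, map_smul]
      exact Submodule.smul_mem _ t h1
  obtain ⟨hXS, hXρ⟩ := key X hX
  have hpow : ∀ (n : ℕ) (f : E), (((ρ ⟨X, hXS⟩ ^ n) f : E) : V) = (X ^ n) f := by
    intro n
    induction n with
    | zero => intro f; rfl
    | succ n ih =>
      intro f
      rw [pow_succ, pow_succ, Module.End.mul_apply, Module.End.mul_apply, ih]
      rfl
  refine trace_lemma 𝒜' (ρ ⟨X, hXS⟩) hXρ ?_ ?_ ?_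
  · rintro _ ⟨A, hA, rfl⟩
    ext f
    exact hcomm _ hA f f.2
  · intro f
    obtain ⟨n, hn⟩ := hnil f f.2
    refine ⟨n, Subtype.ext ?_⟩
    rw [hpow, hn]
    rfl
  · let φ : LinearMap.ker (ρ ⟨X, hXS⟩) →ₗ[k] (E ⊓ LinearMap.ker X : Submodule k V) :=
      { toFun := fun f => ⟨(f : E), (f : E).2, by
          have h1 : ρ ⟨X, hXS⟩ (f : E) = 0 := f.2
          exact congrArg Subtype.val h1⟩
        map_add' := fun f g => rfl
        map_smul' := fun c f => rfl }
    have hφ : Function.Injective φ := by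
      intro f g hfg
      apply Subtype.ext
      apply Subtype.ext
      have h1 : ((φ f : (E ⊓ LinearMap.ker X : Submodule k V)) : V) = (φ g : V) := by rw [hfg]
      exact h1
    exact Module.Finite.of_injective φ hφ

end Pool.Agent.Helper30.SV
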